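import Mathlib
import Pool.Agent.LGO.H.Core

/-!
# LGO/S: definitions

A curve `V` which avoids `(∞, ∞, ∞)` has either two types of points at infinity with two infinite
coordinates (`TwoInf`, Theorem H), or a point at infinity of type A: exactly one infinite coordinate.
-/

namespace Pool.Agent.LGO

open Filter Topology

/-- a point at infinity with exactly one infinite coordinate: `x_a = ∞`, `x_b = β`, `x_c = γ` -/
structure TypeA {n : ℕ} (V : Set (Fin n → ℂ)) (i : Fin 3 → Fin n) (a b c : Fin 3) (β γ : ℂ) :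
    Prop where
  ab : a ≠ b
  ac : a ≠ c
  bc : b ≠ c
  ex : ∃ P : ℕ → Fin n → ℂ, (∀ m, P m ∈ V) ∧ Tendsto (fun m => ‖P m (i a)‖) atTop atTop ∧
    Tendsto (fun m => P m (i b)) atTop (𝓝 β) ∧ Tendsto (fun m => P m (i c)) atTop (𝓝 γ)

/-- a number comparable with the maximum of the isogeny degrees -/
noncomputable def nd {n : ℕ} (i : Fin 3 → Fin n) (x : Fin n → ℂ) : ℝ :=
  3 + ∑ a, ∑ b, (mdeg (x (i a)) (x (i b)) : ℝ)

end Pool.Agent.LGO
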