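import Mathlib
import Pool.Agent.LGO.H.MDeg
import Pool.Agent.LGO.Q.Loc
import Pool.Agent.LGO.Q.Ent

/-!
# LGO/S: the matrix of an isogeny between two curves near two fixed ones

Proof of `near`.  `j_local` (`LGO/Q/Loc.lean`) for `z₀` and `z₁`: constants `C₁, m₁, ε`.  If `T ≥ C` is large
then `‖Y - j(z₀)‖ ≤ (C₀ / T) ^ (1/m) < ε`, so there is `τ` with `j(τ) = Y`, `‖τ - z₀‖ ^ m₁ ≤ C₁ ‖Y - j(z₀)‖`,
so `‖τ - z₀‖ ^ (m m₁) T ≤ C₁ ^ m C₀`; the same for `τ'` with `j(τ') = Z` and `z₁`.  For large `T` both `τ, τ'` lie in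
a fixed compact set: `‖τ‖, ‖τ'‖ ≤ R`, `Im τ, Im τ' ≥ 1 / R`.  `exists_prim_mdeg` gives `g` and
`entries_le` (`LGO/Q/Ent.lean`) the bound of the entries.  Since `τ' (g10 τ + g11) = g00 τ + g01`:
`z₁ (g10 z₀ + g11) - (g00 z₀ + g01) = (z₁ - τ') (g10 z₀ + g11) + τ' g10 (z₀ - τ) + g00 (τ - z₀)`, of absolute
value `≤ C det g (‖τ - z₀‖ + ‖τ' - z₁‖)`.  Take `m' = m m₁` (product of all exponents that occur) and use
`(u + v) ^ m' ≤ 2 ^ m' (u ^ m' + v ^ m')`.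
-/

namespace Pool.Agent.LGO

open UpperHalfPlane Pool.Agent.Hhelper14.ZP

/-- A value close to `j(z₀)` has a preimage close to `z₀`. -/
theorem near_pt (z₀ : ℍ) {δ A : ℝ} (hδ : 0 < δ) (hA : 1 ≤ A) (m : ℕ) :
    ∃ (C : ℝ) (m₁ : ℕ), 1 ≤ C ∧ 0 < m₁ ∧ ∀ (T : ℝ) (Y : ℂ), C ≤ T → ‖Y - jInv z₀‖ ^ m * T ≤ A →
      ∃ τ : ℍ, jInv τ = Y ∧ ‖(τ : ℂ) - z₀‖ ≤ δ ∧ ‖(τ : ℂ) - z₀‖ ^ (m * m₁) * T ≤ C := by
  obtain ⟨C₁, m₁, ε, hC₁, hm₁, hε, H⟩ := j_local z₀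
  set ε' : ℝ := min ε (δ ^ m₁ / C₁) with hε'
  have hε'0 : 0 < ε' := lt_min hε (by positivity)
  have hA0 : 0 < A := by linarith
  refine ⟨1 + A / ε' ^ m + C₁ ^ m * A, m₁, ?_, hm₁, ?_⟩
  · have h1 : 0 < A / ε' ^ m := by positivity
    have h2 : 0 < C₁ ^ m * A := by positivity
    linarith
  · intro T Y hT hY
    have h1 : 0 < A / ε' ^ m := by positivity
    have h2 : 0 < C₁ ^ m * A := by positivity
    have hT0 : 0 < T := by linarith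
    have hT1 : A / ε' ^ m < T := by linarith
    have hlt : ‖Y - jInv z₀‖ < ε' := by
      by_contra hcon
      push Not at hcon
      have h3 : ε' ^ m ≤ ‖Y - jInv z₀‖ ^ m := pow_le_pow_left₀ hε'0.le hcon m
      have h4 : A < T * ε' ^ m := by
        rwa [div_lt_iff₀ (by positivity)] at hT1
      have h5 : ε' ^ m * T ≤ ‖Y - jInv z₀‖ ^ m * T := mul_le_mul_of_nonneg_right h3 hT0.le
      linarith
    obtain ⟨τ, h3, h4⟩ := H Y (hlt.trans_le (min_le_left _ _))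
    refine ⟨τ, h3, ?_, ?_⟩
    · have h5 : ‖Y - jInv z₀‖ ≤ δ ^ m₁ / C₁ := (hlt.trans_le (min_le_right _ _)).le
      have h6 : ‖(τ : ℂ) - z₀‖ ^ m₁ ≤ δ ^ m₁ := by
        refine h4.trans ?_
        rw [le_div_iff₀ hC₁] at h5
        linarith
      exact le_of_pow_le_pow_left₀ hm₁.ne' hδ.le h6
    · have h5 : ‖(τ : ℂ) - z₀‖ ^ (m * m₁) ≤ C₁ ^ m * ‖Y - jInv z₀‖ ^ m := by
        rw [mul_comm m m₁, pow_mul, ← mul_pow]
        exact pow_le_pow_left₀ (by positivity) h4 m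
      calc ‖(τ : ℂ) - z₀‖ ^ (m * m₁) * T ≤ C₁ ^ m * ‖Y - jInv z₀‖ ^ m * T := by gcongr
        _ = C₁ ^ m * (‖Y - jInv z₀‖ ^ m * T) := by ring
        _ ≤ C₁ ^ m * A := by gcongr
        _ ≤ _ := by linarith

/-- The final estimate. -/
theorem near_fin {x y T K d D C E : ℝ} (hx0 : 0 ≤ x) (hy0 : 0 ≤ y) (hT0 : 0 < T) (hK0 : 0 < K)
    (hd0 : 0 < d) (hD1 : 1 ≤ D) (hC : K * 2 * D ≤ C) {M : ℕ} (hmm : 0 < M) (hE0 : 0 ≤ E)
    (hE : E ≤ K * d * (x + y)) (hxy' : x ^ M * T + y ^ M * T ≤ D) : E ^ M * T ≤ (C * d) ^ M := by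
  have hxy : (x + y) ^ M ≤ 2 ^ M * (x ^ M + y ^ M) := by
    rcases le_total x y with h | h
    · calc (x + y) ^ M ≤ (2 * y) ^ M := by
            apply pow_le_pow_left₀ (by positivity); linarith
        _ = 2 ^ M * y ^ M := mul_pow _ _ _
        _ ≤ _ := by
            have : 0 ≤ x ^ M := by positivity
            gcongr
            linarith
    · calc (x + y) ^ M ≤ (2 * x) ^ M := by
            apply pow_le_pow_left₀ (by positivity); linarith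
        _ = 2 ^ M * x ^ M := mul_pow _ _ _
        _ ≤ _ := by
            have : 0 ≤ y ^ M := by positivity
            gcongr
            linarith
  have hDM : D ≤ D ^ M := by
    calc D = D ^ 1 := (pow_one D).symm
      _ ≤ D ^ M := pow_le_pow_right₀ hD1 hmm
  calc E ^ M * T ≤ (K * d * (x + y)) ^ M * T := by gcongr
    _ = (K * d) ^ M * ((x + y) ^ M) * T := by rw [mul_pow]
    _ ≤ (K * d) ^ M * (2 ^ M * (x ^ M + y ^ M)) * T := by gcongr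
    _ = (K * d * 2) ^ M * (x ^ M * T + y ^ M * T) := by rw [mul_pow (K * d) 2]; ring
    _ ≤ (K * d * 2) ^ M * D := by gcongr
    _ ≤ (K * d * 2) ^ M * D ^ M := by gcongr
    _ = (K * d * 2 * D) ^ M := by rw [mul_pow (K * d * 2) D]
    _ = (K * 2 * D * d) ^ M := by congr 1; ring
    _ ≤ (C * d) ^ M := by
        apply pow_le_pow_left₀ (by positivity)
        gcongr

theorem near (z₀ z₁ : ℍ) (C₀ : ℝ) {m : ℕ} (hm : 0 < m) : ∃ (C : ℝ) (m' : ℕ), 1 ≤ C ∧ 0 < m' ∧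
    ∀ (T : ℝ) (Y Z : ℂ), C ≤ T → (∃ N, 0 < N ∧ IsogDeg N Y Z) → ‖Y - jInv z₀‖ ^ m * T ≤ C₀ →
      ‖Z - jInv z₁‖ ^ m * T ≤ C₀ → ∃ g : Matrix (Fin 2) (Fin 2) ℤ, g.det = mdeg Y Z ∧ 0 < g.det ∧
        Prim g ∧ (∀ i j, |(g i j : ℝ)| ≤ C * g.det) ∧
        ‖(z₁ : ℂ) * ((g 1 0 : ℂ) * z₀ + (g 1 1 : ℂ)) - ((g 0 0 : ℂ) * z₀ + (g 0 1 : ℂ))‖ ^ m' * T ≤
          (C * g.det) ^ m' := by
  have hz0 := z₀.im_pos
  have hz1 := z₁.im_pos
  set δ : ℝ := min 1 (min (z₀.im / 2) (z₁.im / 2)) with hδ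
  have hδ0 : 0 < δ := by positivity
  have hδ1 : δ ≤ 1 := min_le_left _ _
  have hδ2 : δ ≤ z₀.im / 2 := (min_le_right _ _).trans (min_le_left _ _)
  have hδ3 : δ ≤ z₁.im / 2 := (min_le_right _ _).trans (min_le_right _ _)
  set A : ℝ := max C₀ 1 with hA
  have hA1 : 1 ≤ A := le_max_right _ _
  obtain ⟨C₁, m₁, hC₁, hm₁, H₁⟩ := near_pt z₀ hδ0 hA1 m
  obtain ⟨C₂, m₂, hC₂, hm₂, H₂⟩ := near_pt z₁ hδ0 hA1 m
  set R : ℝ := 1 + ‖(z₀ : ℂ)‖ + ‖(z₁ : ℂ)‖ + 2 / z₀.im + 2 / z₁.im with hR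
  have hn0 := norm_nonneg (z₀ : ℂ)
  have hn1 := norm_nonneg (z₁ : ℂ)
  have hi0 : 0 < 2 / z₀.im := by positivity
  have hi1 : 0 < 2 / z₁.im := by positivity
  have hR1 : 1 ≤ R := by linarith
  have hR0 : 0 < R := by linarith
  set K : ℝ := 2 * R ^ 4 * (R + 1) with hK
  have hK0 : 0 < K := by positivity
  set D : ℝ := C₁ + C₂ with hD
  have hD1 : 1 ≤ D := by linarith
  set C : ℝ := C₁ + C₂ + 2 * R ^ 4 + K * 2 * D with hC
  have hR4 : 0 < 2 * R ^ 4 := by positivity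
  have hKD : 0 < K * 2 * D := by positivity
  refine ⟨C, m * m₁ * m₂, by linarith, by positivity, ?_⟩
  intro T Y Z hT hN hY hZ
  have hT0 : 0 < T := by linarith
  obtain ⟨τ, hτ, hτ1, hτ2⟩ := H₁ T Y (by linarith) (hY.trans (le_max_left _ _))
  obtain ⟨τ', hτ', hτ'1, hτ'2⟩ := H₂ T Z (by linarith) (hZ.trans (le_max_left _ _))
  subst hτ hτ'
  obtain ⟨g, hg, hg0, hgp, hgm⟩ := exists_prim_mdeg hN
  -- compactness
  have him : ∀ (z t : ℍ), ‖(t : ℂ) - z‖ ≤ δ → δ ≤ z.im / 2 → 2 / z.im ≤ R → R⁻¹ ≤ (t : ℂ).im := by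
    intro z t h1 h2 h3
    have h4 : |((t : ℂ) - z).im| ≤ δ := (Complex.abs_im_le_norm _).trans h1
    rw [Complex.sub_im] at h4
    have h5 := (abs_le.mp h4).1
    have hz := z.im_pos
    have h6 : R⁻¹ ≤ z.im / 2 := by
      rw [inv_le_comm₀ hR0 (by positivity)]
      rw [inv_div]
      exact h3
    have h7 : (z : ℂ).im = z.im := rfl
    linarith
  have hnt : ∀ (z t : ℍ), ‖(t : ℂ) - z‖ ≤ δ → ‖(z : ℂ)‖ + 1 ≤ R → ‖(t : ℂ)‖ ≤ R := by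
    intro z t h1 h2
    have h3 : ‖(t : ℂ)‖ ≤ ‖(t : ℂ) - z‖ + ‖(z : ℂ)‖ := by
      have := norm_add_le ((t : ℂ) - z) z
      rwa [sub_add_cancel] at this
    linarith
  have k1 : ‖(τ : ℂ)‖ ≤ R := hnt z₀ τ hτ1 (by linarith)
  have k2 : ‖(τ' : ℂ)‖ ≤ R := hnt z₁ τ' hτ'1 (by linarith)
  have k3 : R⁻¹ ≤ (τ : ℂ).im := him z₀ τ hτ1 hδ2 (by linarith)
  have k4 : R⁻¹ ≤ (τ' : ℂ).im := him z₁ τ' hτ'1 hδ3 (by linarith)
  have hent := entries_le hgm hg0 hR1 k1 k2 k3 k4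
  have hdet1 : (1 : ℝ) ≤ g.det := by exact_mod_cast hg0
  have hdet0 : (0 : ℝ) < g.det := by linarith
  refine ⟨g, hg, hg0, hgp, ?_, ?_⟩
  · intro i j
    refine (hent i j).trans ?_
    have : 2 * R ^ 4 ≤ C := by linarith
    exact mul_le_mul_of_nonneg_right this hdet0.le
  · set x : ℝ := ‖(τ : ℂ) - z₀‖ with hx
    set y : ℝ := ‖(τ' : ℂ) - z₁‖ with hy
    have hx0 : 0 ≤ x := norm_nonneg _
    have hy0 : 0 ≤ y := norm_nonneg _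
    have hx1 : x ≤ 1 := hτ1.trans hδ1
    have hy1 : y ≤ 1 := hτ'1.trans hδ1
    have hnorm : ∀ i j, ‖(g i j : ℂ)‖ ≤ 2 * R ^ 4 * g.det := by
      intro i j
      rw [← Complex.ofReal_intCast, Complex.norm_real, Real.norm_eq_abs]
      exact hent i j
    set B : ℝ := 2 * R ^ 4 * g.det with hB
    have hB0 : 0 < B := by positivity
    have hE : (z₁ : ℂ) * ((g 1 0 : ℂ) * z₀ + (g 1 1 : ℂ)) - ((g 0 0 : ℂ) * z₀ + (g 0 1 : ℂ)) =
        ((z₁ : ℂ) - τ') * ((g 1 0 : ℂ) * z₀ + (g 1 1 : ℂ)) + (τ' : ℂ) * (g 1 0 : ℂ) * (z₀ - τ) +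
          (g 0 0 : ℂ) * (τ - z₀) := by
      have : (τ' : ℂ) * ((g 1 0 : ℂ) * τ + (g 1 1 : ℂ)) = (g 0 0 : ℂ) * τ + (g 0 1 : ℂ) := hgm
      linear_combination this
    have hy' : ‖(z₁ : ℂ) - τ'‖ = y := norm_sub_rev _ _
    have hx' : ‖(z₀ : ℂ) - τ‖ = x := norm_sub_rev _ _
    have hEn : ‖(z₁ : ℂ) * ((g 1 0 : ℂ) * z₀ + (g 1 1 : ℂ)) - ((g 0 0 : ℂ) * z₀ + (g 0 1 : ℂ))‖ ≤
        K * g.det * (x + y) := by
      rw [hE]
      have e1 : ‖((z₁ : ℂ) - τ') * ((g 1 0 : ℂ) * z₀ + (g 1 1 : ℂ))‖ ≤ y * (B * R + B) := by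
        rw [norm_mul, hy']
        gcongr
        refine (norm_add_le _ _).trans ?_
        rw [norm_mul]
        have h0 : ‖(z₀ : ℂ)‖ ≤ R := by linarith
        have h10 := hnorm 1 0
        have h11 := hnorm 1 1
        gcongr
      have e2 : ‖(τ' : ℂ) * (g 1 0 : ℂ) * (z₀ - τ)‖ ≤ R * B * x := by
        rw [norm_mul, norm_mul, hx']
        have h10 := hnorm 1 0
        gcongr
      have e3 : ‖(g 0 0 : ℂ) * ((τ : ℂ) - z₀)‖ ≤ B * x := by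
        rw [norm_mul, ← hx]
        have h00 := hnorm 0 0
        gcongr
      have e4 := norm_add₃_le (a := ((z₁ : ℂ) - τ') * ((g 1 0 : ℂ) * z₀ + (g 1 1 : ℂ)))
        (b := (τ' : ℂ) * (g 1 0 : ℂ) * (z₀ - τ)) (c := (g 0 0 : ℂ) * (τ - z₀))
      have e5 : K * g.det * (x + y) = y * (B * R + B) + R * B * x + B * x := by
        rw [hK, hB]; ring
      rw [e5]
      linarith
    have hxm : x ^ (m * m₁ * m₂) * T ≤ C₁ := by
      refine le_trans ?_ hτ2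
      have : x ^ (m * m₁ * m₂) ≤ x ^ (m * m₁) :=
        pow_le_pow_of_le_one hx0 hx1 (Nat.le_mul_of_pos_right _ hm₂)
      gcongr
    have hym : y ^ (m * m₁ * m₂) * T ≤ C₂ := by
      refine le_trans ?_ hτ'2
      have : y ^ (m * m₁ * m₂) ≤ y ^ (m * m₂) :=
        pow_le_pow_of_le_one hy0 hy1 (Nat.mul_le_mul_right m₂ (Nat.le_mul_of_pos_right m hm₁))
      gcongr
    have hmm : 0 < m * m₁ * m₂ := by positivity
    set M : ℕ := m * m₁ * m₂ with hM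
    exact near_fin hx0 hy0 hT0 hK0 hdet0 hD1 (by linarith) hmm (norm_nonneg _) hEn
      (by rw [hD]; linarith)

end Pool.Agent.LGO
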