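import Mathlib
import Pool.Agent.LGO.S.Defs
import Pool.Agent.LGO.G.Geo
import Pool.Agent.LGO.G.RelF

/-!
# LGO/S: the function at a point at infinity of type A

Proof of `cuspA`, as `cuspF` in `LGO/H/CuspF.lean`.  `F` from `geo` for the sequence `P` and the coordinate
`a`.  `β`, `γ` are algebraic (`limit_algebraic`).  Apply `geo` to the pairs `(N, D)` = `(1, X a)`,
`(X b - C β, 1)`, `(X c - C γ, 1)`: the quotients tend to `0` along `P`.  Common constants: `C` = sum,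
and the exponents `m_j` can be replaced by their sum: `C ≤ ‖s F‖` gives `1 ≤ ‖s x_a‖` and
`‖s x_b - s β‖ ≤ 1`, `‖s x_c - s γ‖ ≤ 1`.
-/

namespace Pool.Agent.LGO

open MvPolynomial Filter Topology Pool.Agent.Hhelper14.ZPL

theorem cuspA {n : ℕ} {V : Set (Fin n → ℂ)} (hV : Pool.Agent.Hhelper14.ZPL.IsIrredClosed V)
    (hVk : KClosed V) (hdim : Pool.Agent.Hhelper14.ZPL.dim V = 1) (i : Fin 3 → Fin n)
    {a b c : Fin 3} {β γ : ℂ} (h : TypeA V i a b c β γ) :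
    IsAlgebraic ℚ β ∧ IsAlgebraic ℚ γ ∧ ∃ (F : MvPolynomial (Fin 3) Qb) (C : ℝ) (m : ℕ),
      (∀ c : ℂ, ∃ x ∈ V, (aeval (x ∘ i) F : ℂ) ≠ c) ∧ 1 ≤ C ∧ 0 < m ∧
      ∀ s : ℂ ≃+* ℂ, ∀ x ∈ V, C ≤ ‖s (aeval (x ∘ i) F : ℂ)‖ →
        ‖s (aeval (x ∘ i) F : ℂ)‖ ≤ C * ‖s (x (i a))‖ ^ m ∧
        ‖s (x (i b)) - s β‖ ^ m * ‖s (aeval (x ∘ i) F : ℂ)‖ ≤ C ∧
        ‖s (x (i c)) - s γ‖ ^ m * ‖s (aeval (x ∘ i) F : ℂ)‖ ≤ C := by
  obtain ⟨P, hP, hinf, hb, hc⟩ := h.ex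
  have halb : IsAlgebraic ℚ β := limit_algebraic hV hVk hdim i P hP a b hinf hb
  have halc : IsAlgebraic ℚ γ := limit_algebraic hV hVk hdim i P hP a c hinf hc
  refine ⟨halb, halc, ?_⟩
  obtain ⟨F, hF, hgeo⟩ := geo hV hVk hdim i P hP a hinf
  -- the infinite coordinate
  obtain ⟨C1, m1, hC1, hm1, h1⟩ := hgeo 1 (X a) (by
    obtain ⟨m, hm⟩ := (hinf.eventually_gt_atTop 0).exists
    refine ⟨P m, hP m, ?_⟩
    rw [aeval_X]
    exact norm_pos_iff.1 hm) (by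
    have h2 : Tendsto (fun m => (P m (i a))⁻¹) atTop (𝓝 0) :=
      tendsto_inv₀_cobounded.comp (tendsto_norm_atTop_iff_cobounded.1 hinf)
    simpa only [aeval_X, map_one, one_div, Function.comp_apply] using h2)
  -- the finite coordinates
  have key : ∀ (d : Fin 3) (δ : ℂ), IsAlgebraic ℚ δ → Tendsto (fun m => P m (i d)) atTop (𝓝 δ) →
      ∃ (C : ℝ) (m : ℕ), 0 < C ∧ 0 < m ∧ ∀ (s : ℂ ≃+* ℂ), ∀ x ∈ V,
          C ≤ ‖s (aeval (x ∘ i) F : ℂ)‖ →
          ‖s (x (i d)) - s δ‖ ^ m * ‖s (aeval (x ∘ i) F : ℂ)‖ ≤ C := by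
    intro d δ halg hlim
    have hδ : δ ∈ Qb := by
      rw [show Qb = algebraicClosure ℚ ℂ from rfl, mem_algebraicClosure_iff]
      exact halg
    obtain ⟨C', m', hC', hm', h3⟩ := hgeo (X d - C (⟨δ, hδ⟩ : Qb)) 1 (by
      refine ⟨P 0, hP 0, ?_⟩
      rw [map_one]
      exact one_ne_zero) (by
      have h4 : Tendsto (fun m => P m (i d) - δ) atTop (𝓝 (δ - δ)) := hlim.sub_const δ
      rw [sub_self] at h4
      have h5 : (fun m => (aeval (P m ∘ i) (X d - C (⟨δ, hδ⟩ : Qb)) / aeval (P m ∘ i)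
          (1 : MvPolynomial (Fin 3) Qb) : ℂ)) = fun m => P m (i d) - δ := by
        funext m
        rw [map_sub, aeval_X, aeval_C, map_one, div_one]
        rfl
      rw [h5]
      exact h4)
    refine ⟨C', m', hC', hm', fun s x hx hle => ?_⟩
    have h5 := h3 s x hx hle
    rw [map_one, map_one, norm_one, one_pow, mul_one, map_sub, aeval_X, aeval_C] at h5
    have h6 : ‖s (x (i d) - δ)‖ ^ m' * ‖s (aeval (x ∘ i) F : ℂ)‖ ≤ C' := h5
    rw [map_sub] at h6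
    exact h6
  obtain ⟨C2, m2, hC2, hm2, h2⟩ := key b β halb hb
  obtain ⟨C3, m3, hC3, hm3, h3⟩ := key c γ halc hc
  -- a power of a small distance
  have small : ∀ (r f D : ℝ) (k M : ℕ), 0 ≤ r → 0 < D → 0 < k → k ≤ M → D ≤ f → r ^ k * f ≤ D →
      r ^ M * f ≤ D := by
    intro r f D k M hr hD hk hkM hDf hrf
    have hr1 : r ≤ 1 := by
      by_contra hcon
      push Not at hcon
      have h4 : 1 < r ^ k := one_lt_pow₀ hcon hk.ne'
      have h5 : f < r ^ k * f := by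
        have h6 : 0 < f := hD.trans_le hDf
        nlinarith
      linarith
    have h4 : r ^ M ≤ r ^ k := pow_le_pow_of_le_one hr hr1 hkM
    exact (mul_le_mul_of_nonneg_right h4 (hD.le.trans hDf)).trans hrf
  refine ⟨F, 1 + C1 + C2 + C3, m1 + m2 + m3, hF, by linarith, by omega, ?_⟩
  intro s x hx hle
  refine ⟨?_, ?_, ?_⟩
  · have h4 : C1 ≤ ‖s (aeval (x ∘ i) F : ℂ)‖ := by linarith
    have h5 : ‖s (aeval (x ∘ i) F : ℂ)‖ ≤ C1 * ‖s (x (i a))‖ ^ m1 := by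
      have h6 := h1 s x hx h4
      simpa only [map_one, norm_one, one_pow, one_mul, aeval_X, Function.comp_apply] using h6
    have h6 : 1 ≤ ‖s (x (i a))‖ ^ m1 := by
      have h7 : C1 * 1 ≤ C1 * ‖s (x (i a))‖ ^ m1 := by rw [mul_one]; exact h4.trans h5
      exact le_of_mul_le_mul_left h7 hC1
    have h8 : 1 ≤ ‖s (x (i a))‖ := by
      by_contra hcon
      push Not at hcon
      have := pow_lt_one₀ (norm_nonneg (s (x (i a)))) hcon hm1.ne'
      linarith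
    calc ‖s (aeval (x ∘ i) F : ℂ)‖ ≤ C1 * ‖s (x (i a))‖ ^ m1 := h5
      _ ≤ C1 * ‖s (x (i a))‖ ^ (m1 + m2 + m3) :=
          mul_le_mul_of_nonneg_left (pow_le_pow_right₀ h8 (by omega)) hC1.le
      _ ≤ (1 + C1 + C2 + C3) * ‖s (x (i a))‖ ^ (m1 + m2 + m3) := by
          refine mul_le_mul_of_nonneg_right ?_ (by positivity)
          linarith
  · have h4 : C2 ≤ ‖s (aeval (x ∘ i) F : ℂ)‖ := by linarith
    have h5 := small _ _ _ m2 (m1 + m2 + m3) (norm_nonneg _) hC2 hm2 (by omega) h4 (h2 s x hx h4)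
    linarith
  · have h4 : C3 ≤ ‖s (aeval (x ∘ i) F : ℂ)‖ := by linarith
    have h5 := small _ _ _ m3 (m1 + m2 + m3) (norm_nonneg _) hC3 hm3 (by omega) h4 (h3 s x hx h4)
    linarith

end Pool.Agent.LGO
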