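import Mathlib
import Pool.Agent.LGO.S.Defs
import Pool.Agent.LGO.H.RelB

/-!
# LGO/S: the core for one point

As `core_good` (`LGO/H/CoreG.lean`, helper90), for a single point `x` and with a weaker hypothesis: `log ‖s F‖`
is bounded by a small power of the isogeny degrees.

Proof.  `c` from `rel_height` (all three `a`), `C₂` from `isog_use`; `A = 2 C₂ + 1`.  `D = [K : ℚ] ≥ 1`,
`N = nd i x ≥ 3`.  `rel_height` with `L = N ^ (1/A) ≥ 1`: `‖s x_a‖ ≤ exp H`, `H = 2 c D N ^ (1/A)`.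
`isog_use` with `M = 2 H`: all `mdeg ≤ (2 H) ^ C₂`, `N ≤ 3 + 9 (2 H) ^ C₂ ≤ 12 (4 c D) ^ C₂ N ^ (C₂ / A)` and
`C₂ / A ≤ 1 / 2`, so `N ≤ (12 (4 c D) ^ C₂) ^ 2`, and `H ≤ 2 c D N`.
-/

namespace Pool.Agent.LGO

open MvPolynomial Pool.Agent.Hhelper14.ZPL

private theorem CorePt_fin {C a e : ℕ} {D : ℝ} (hD : 1 ≤ D) (hC : 1 ≤ C) (ha : a ≤ C) (he : e ≤ C) :
    (a : ℝ) * D ^ e ≤ (C * D) ^ C := by
  rw [mul_pow]
  have h1 : (a : ℝ) ≤ C ^ C := by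
    have h2 : C ^ 1 ≤ C ^ C := Nat.pow_le_pow_right hC hC
    rw [pow_one] at h2
    exact_mod_cast ha.trans h2
  exact mul_le_mul h1 (pow_le_pow_right₀ hD he) (by positivity) (by positivity)

/-- the numerical conclusion -/
private theorem CorePt_num {c C₂ : ℕ} {D N : ℝ} (hD : 1 ≤ D) (hN : 3 ≤ N)
    (h : N ≤ 12 * (2 * (2 * c * D * N ^ (1 / ((2 * C₂ + 1 : ℕ) : ℝ)))) ^ C₂) :
    N ≤ ((12 * (4 * c) ^ C₂) ^ 2 : ℕ) * D ^ (2 * C₂) ∧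
      2 * c * D * N ^ (1 / ((2 * C₂ + 1 : ℕ) : ℝ)) ≤
        (2 * c * (12 * (4 * c) ^ C₂) ^ 2 : ℕ) * D ^ (2 * C₂ + 1) := by
  have hN0 : 0 < N := by linarith
  have hN1 : 1 ≤ N := by linarith
  have hs : 0 < √N := Real.sqrt_pos.2 hN0
  have hss : √N * √N = N := Real.mul_self_sqrt hN0.le
  have hD0 : 0 ≤ D := by linarith
  have hA : (0 : ℝ) < ((2 * C₂ + 1 : ℕ) : ℝ) := by positivity
  have hp : (N ^ (1 / ((2 * C₂ + 1 : ℕ) : ℝ))) ^ C₂ ≤ √N := by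
    rw [← Real.rpow_natCast, ← Real.rpow_mul hN0.le, Real.sqrt_eq_rpow]
    apply Real.rpow_le_rpow_of_exponent_le hN1
    rw [div_mul_eq_mul_div, one_mul, div_le_div_iff₀ hA (by norm_num)]
    push_cast
    linarith
  have hp1 : N ^ (1 / ((2 * C₂ + 1 : ℕ) : ℝ)) ≤ N := by
    have h1 : N ^ (1 / ((2 * C₂ + 1 : ℕ) : ℝ)) ≤ N ^ (1 : ℝ) := by
      apply Real.rpow_le_rpow_of_exponent_le hN1
      rw [div_le_one hA]
      push_cast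
      have : (0 : ℝ) ≤ C₂ := by positivity
      linarith
    rwa [Real.rpow_one] at h1
  have h1 : N ≤ 12 * (4 * c) ^ C₂ * D ^ C₂ * √N := by
    calc N ≤ 12 * (2 * (2 * c * D * N ^ (1 / ((2 * C₂ + 1 : ℕ) : ℝ)))) ^ C₂ := h
      _ = 12 * (4 * c) ^ C₂ * D ^ C₂ * (N ^ (1 / ((2 * C₂ + 1 : ℕ) : ℝ))) ^ C₂ := by
          have e1 : 2 * (2 * c * D * N ^ (1 / ((2 * C₂ + 1 : ℕ) : ℝ))) =
              (4 * c) * D * N ^ (1 / ((2 * C₂ + 1 : ℕ) : ℝ)) := by ring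
          rw [e1, mul_pow, mul_pow]
          ring
      _ ≤ 12 * (4 * c) ^ C₂ * D ^ C₂ * √N :=
          mul_le_mul_of_nonneg_left hp (by positivity)
  have h2 : √N ≤ 12 * (4 * c) ^ C₂ * D ^ C₂ := by
    have h3 : √N * √N ≤ 12 * (4 * c) ^ C₂ * D ^ C₂ * √N := by rw [hss]; exact h1
    exact le_of_mul_le_mul_right h3 hs
  have h4 : N ≤ ((12 * (4 * c) ^ C₂) ^ 2 : ℕ) * D ^ (2 * C₂) := by
    calc N = √N * √N := hss.symm
      _ ≤ (12 * (4 * c) ^ C₂ * D ^ C₂) * (12 * (4 * c) ^ C₂ * D ^ C₂) :=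
          mul_le_mul h2 h2 hs.le (by positivity)
      _ = ((12 * (4 * c) ^ C₂) ^ 2 : ℕ) * D ^ (2 * C₂) := by push_cast; ring
  refine ⟨h4, ?_⟩
  calc 2 * c * D * N ^ (1 / ((2 * C₂ + 1 : ℕ) : ℝ)) ≤ 2 * c * D * N := by gcongr
    _ ≤ 2 * c * D * (((12 * (4 * c) ^ C₂) ^ 2 : ℕ) * D ^ (2 * C₂)) := by gcongr
    _ = (2 * c * (12 * (4 * c) ^ C₂) ^ 2 : ℕ) * D ^ (2 * C₂ + 1) := by
        push_cast
        ring

theorem core_pt {n : ℕ} {V : Set (Fin n → ℂ)} (hV : Pool.Agent.Hhelper14.ZPL.IsIrredClosed V)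
    (hVk : KClosed V) (hdim : Pool.Agent.Hhelper14.ZPL.dim V = 1) (i : Fin 3 → Fin n)
    {F : MvPolynomial (Fin 3) Qb} (hF : ∀ c : ℂ, ∃ x ∈ V, (aeval (x ∘ i) F : ℂ) ≠ c) :
    ∃ (A C : ℕ) (E : Set (Fin n → ℂ)), 0 < A ∧ E.Finite ∧ ∀ x ∈ V, x ∉ E →
      (∀ a, NCM (x (i a))) → (∀ a b, ∃ N, 0 < N ∧ IsogDeg N (x (i a)) (x (i b))) →
      (∀ a, IsIntegral ℤ (x (i a))) →
      (∀ s : ℂ ≃+* ℂ, ‖s (aeval (x ∘ i) F : ℂ)‖ ≤ Real.exp (nd i x ^ (1 / (A : ℝ)))) →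
      Concl i C x := by
  classical
  choose Cr Er hCr hEr hrel using fun a => rel_height hV hVk hdim i hF a
  obtain ⟨C₂, hisog⟩ := isog_use
  obtain ⟨c, hc⟩ := exists_nat_ge (∑ a, Cr a)
  have hca : ∀ a, Cr a ≤ c := fun a =>
    (Finset.single_le_sum (f := Cr) (fun b _ => zero_le_one.trans (hCr b)) (Finset.mem_univ a)).trans
      hc
  have hc1 : (1 : ℝ) ≤ c := (hCr 0).trans (hca 0)
  obtain ⟨A, hA⟩ : ∃ A : ℕ, A = (12 * (4 * c) ^ C₂) ^ 2 := ⟨_, rfl⟩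
  obtain ⟨B, hB⟩ : ∃ B : ℕ, B = 2 * c * (12 * (4 * c) ^ C₂) ^ 2 := ⟨_, rfl⟩
  refine ⟨2 * C₂ + 1, A + B + 2 * C₂ + 2, ⋃ a, Er a, by omega, Set.finite_iUnion hEr, ?_⟩
  intro x hx hxE hncm hiso hint hF0 K _ hxK
  have hxEr : ∀ a, x ∉ Er a := fun a h => hxE (Set.mem_iUnion.2 ⟨a, h⟩)
  obtain ⟨D, hDdef⟩ : ∃ D : ℝ, D = (Module.finrank ℚ K : ℝ) := ⟨_, rfl⟩
  have hD : 1 ≤ D := by
    rw [hDdef]
    exact_mod_cast Module.finrank_pos (R := ℚ) (M := K)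
  obtain ⟨N, hNdef⟩ : ∃ N : ℝ, N = nd i x := ⟨_, rfl⟩
  rw [← hNdef] at hF0
  rw [nd] at hNdef
  have hNab : ∀ a b, (mdeg (x (i a)) (x (i b)) : ℝ) ≤ N := by
    intro a b
    have h1 : (mdeg (x (i a)) (x (i b)) : ℝ) ≤ ∑ b, (mdeg (x (i a)) (x (i b)) : ℝ) :=
      Finset.single_le_sum (f := fun b => (mdeg (x (i a)) (x (i b)) : ℝ))
        (fun _ _ => Nat.cast_nonneg _) (Finset.mem_univ b)
    have h2 : ∑ b, (mdeg (x (i a)) (x (i b)) : ℝ) ≤ ∑ a, ∑ b, (mdeg (x (i a)) (x (i b)) : ℝ) :=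
      Finset.single_le_sum (f := fun a => ∑ b, (mdeg (x (i a)) (x (i b)) : ℝ))
        (fun _ _ => Finset.sum_nonneg fun _ _ => Nat.cast_nonneg _) (Finset.mem_univ a)
    linarith
  have hN3 : 3 ≤ N := by
    have : 0 ≤ ∑ a, ∑ b, (mdeg (x (i a)) (x (i b)) : ℝ) :=
      Finset.sum_nonneg fun _ _ => Finset.sum_nonneg fun _ _ => Nat.cast_nonneg _
    linarith
  obtain ⟨L, hL⟩ : ∃ L : ℝ, L = N ^ (1 / ((2 * C₂ + 1 : ℕ) : ℝ)) := ⟨_, rfl⟩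
  rw [← hL] at hF0
  have hL1 : 1 ≤ L := by
    rw [hL]
    exact Real.one_le_rpow (by linarith) (by positivity)
  obtain ⟨H, hH⟩ : ∃ H : ℝ, H = 2 * c * D * L := ⟨_, rfl⟩
  have hHD : D ≤ H := by
    rw [hH]
    have h1 : (1 : ℝ) * D * 1 ≤ c * D * L := by gcongr
    nlinarith
  have hsx : ∀ a, ∀ s : ℂ ≃+* ℂ, ‖s (x (i a))‖ ≤ Real.exp H := by
    intro a s
    refine (hrel a x hx (hxEr a) K hxK hint L (by linarith) hF0 s).trans ?_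
    apply Real.exp_le_exp.2
    rw [hH, ← hDdef]
    have h1 : Cr a * D * (1 + L) ≤ c * D * (1 + L) := by
      have := hca a
      gcongr
    have h2 : (c : ℝ) * D * (1 + L) ≤ c * D * (L + L) := by gcongr
    linarith
  have hBd : ∀ a, Bd K (2 * H) (x (i a)) := by
    intro a
    refine bd_of_aut (hxK a) (hint a) (by linarith) fun s => (hsx a s).trans ?_
    apply Real.exp_le_exp.2
    linarith
  have hmd : ∀ a b, (mdeg (x (i a)) (x (i b)) : ℝ) ≤ (2 * H) ^ C₂ := fun a b =>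
    hisog K (2 * H) _ _ (by linarith) (by linarith) (hBd a) (hBd b) (hncm a) (hncm b) (hiso a b)
  have hN : N ≤ 12 * (2 * H) ^ C₂ := by
    have h1 : ∑ a : Fin 3, ∑ b : Fin 3, (mdeg (x (i a)) (x (i b)) : ℝ) ≤
        ∑ _a : Fin 3, ∑ _b : Fin 3, (2 * H) ^ C₂ :=
      Finset.sum_le_sum fun a _ => Finset.sum_le_sum fun b _ => hmd a b
    have h2 : (1 : ℝ) ≤ (2 * H) ^ C₂ := one_le_pow₀ (by linarith)
    simp only [Finset.sum_const, Finset.card_univ, Fintype.card_fin, nsmul_eq_mul] at h1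
    push_cast at h1
    linarith
  rw [hH, hL] at hN
  obtain ⟨hN1, hH1⟩ := CorePt_num hD hN3 hN
  rw [← hA] at hN1
  rw [← hB, ← hL, ← hH] at hH1
  rw [← hDdef]
  constructor
  · intro a b
    exact (hNab a b).trans (hN1.trans (CorePt_fin hD (by omega) (by omega) (by omega)))
  · intro a s
    refine (hsx a s).trans (Real.exp_le_exp.2 ?_)
    exact hH1.trans (CorePt_fin hD (by omega) (by omega) (by omega))

end Pool.Agent.LGO
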