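import Mathlib
import Pool.Agent.LGO.Defs
import Pool.Agent.LGO.Q.Defs

/-!
# LGO/S: the gap principle for two matrices

Proof of `gap`.  Let `D = g10 z₀ + g11`, `A = g00 z₀ + g01`, `ε = z₁ D - A`, and `D', A', ε'` for `g'`.
The integral quadratic polynomial
`q(X) = (g00 X + g01)(g'10 X + g'11) - (g'00 X + g'01)(g10 X + g11)` has
`q(z₀) = A D' - A' D = (z₁ D - ε) D' - (z₁ D' - ε') D = ε' D - ε D'`, and with `N = det g < N' = det g'`
`|D|, |D'| ≤ C₀ N' (|z₀| + 1)`, `|ε| ≤ C₀ N T^(-1/m)`, `|ε'| ≤ C₀ N' T'^(-1/m)`, so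
`|q(z₀)| ≤ C N'² S^(-1/m)`, `S = min T T'`.  Its coefficients
`g00 g'10 - g'00 g10`, `g00 g'11 + g01 g'10 - g'00 g11 - g'01 g10`, `g01 g'11 - g'01 g11` are `≤ C N'²` in absolute
value.  If they are all zero then the two Moebius transformations agree: `g' = r g` with a rational
`r`: from `(g00 X + g01)(g'10 X + g'11) = (g'00 X + g'01)(g10 X + g11)` and `det g ≠ 0` (the two linear
factors on each side are coprime).  Both are primitive, so `r = ± 1` and `det g = det g'`, a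
contradiction.  So `QM (jInv z₀)` for `τ = z₀`, `H = C N'² + 3`: `exp (-(C₁ (log H) ^ C₁)) ≤ C N'² S^(-1/m)`, that is
`S ≤ (C N'²) ^ m exp (m C₁ (log H) ^ C₁) ≤ exp (C (log (N' + 2)) ^ C)` (`log (N' + 2) ≥ 1`).
-/

namespace Pool.Agent.LGO

open UpperHalfPlane Pool.Agent.Hhelper14.ZP

private theorem gap_alg (p q r s p' q' r' s' : ℤ) (h : 0 < p * s - q * r)
    (ha : p * r' - p' * r = 0) (hb : p * s' + q * r' - p' * s - q' * r = 0)
    (hc : q * s' - q' * s = 0) :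
    ∃ t : ℤ, (p * s - q * r) * p' = t * p ∧ (p * s - q * r) * q' = t * q ∧
      (p * s - q * r) * r' = t * r ∧ (p * s - q * r) * s' = t * s := by
  have hne : p * s - q * r ≠ 0 := h.ne'
  have h1 : r' * s - s' * r = 0 := by
    have : (p * s - q * r) * (r' * s - s' * r) = 0 := by
      linear_combination s ^ 2 * ha - s * r * hb + r ^ 2 * hc
    rcases mul_eq_zero.1 this with h0 | h0
    · exact absurd h0 hne
    · exact h0
  have h2 : p' * q - q' * p = 0 := by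
    have : (p * s - q * r) * (p' * q - q' * p) = 0 := by
      linear_combination q ^ 2 * ha - q * p * hb + p ^ 2 * hc
    rcases mul_eq_zero.1 this with h0 | h0
    · exact absurd h0 hne
    · exact h0
  have hu : p * s' - p' * s = 0 := by
    have h3 : q * r * (p * s' - p' * s) = 0 := by
      linear_combination (-(p * q)) * h1 + q * s * ha
    rcases mul_eq_zero.1 h3 with h0 | h0
    · rcases mul_eq_zero.1 h0 with hq | hr
      · have hp : p ≠ 0 := by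
          rintro rfl
          apply hne
          rw [hq]; ring
        have hq' : q' = 0 := by
          have : q' * p = 0 := by rw [hq] at h2; linear_combination -h2
          rcases mul_eq_zero.1 this with h | h
          · exact h
          · exact absurd h hp
        rw [hq, hq'] at hb
        linear_combination hb
      · have hs : s ≠ 0 := by
          rintro rfl
          apply hne
          rw [hr]; ring
        have hr' : r' = 0 := by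
          have : r' * s = 0 := by rw [hr] at h1; linear_combination h1
          rcases mul_eq_zero.1 this with h | h
          · exact h
          · exact absurd h hs
        rw [hr, hr'] at hb
        linear_combination hb
    · exact h0
  have hv : q * r' - q' * r = 0 := by linear_combination hb - hu
  refine ⟨p' * s - q' * r, ?_, ?_, ?_, ?_⟩
  · linear_combination (-r) * h2
  · linear_combination (-s) * h2
  · linear_combination p * h1 + r * hu - r * hv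
  · linear_combination s * hu - r * hc

private theorem gap_ne (g g' : Matrix (Fin 2) (Fin 2) ℤ) (h : 0 < g.det) (h' : g.det < g'.det)
    (hg : Prim g) (hg' : Prim g')
    (ha : g 0 0 * g' 1 0 - g' 0 0 * g 1 0 = 0)
    (hb : g 0 0 * g' 1 1 + g 0 1 * g' 1 0 - g' 0 0 * g 1 1 - g' 0 1 * g 1 0 = 0)
    (hc : g 0 1 * g' 1 1 - g' 0 1 * g 1 1 = 0) : False := by
  have hd : g.det = g 0 0 * g 1 1 - g 0 1 * g 1 0 := Matrix.det_fin_two g
  have hd' : g'.det = g' 0 0 * g' 1 1 - g' 0 1 * g' 1 0 := Matrix.det_fin_two g'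
  obtain ⟨t, t1, t2, t3, t4⟩ := gap_alg _ _ _ _ _ _ _ _ (hd ▸ h) ha hb hc
  rw [← hd] at t1 t2 t3 t4
  have hall : ∀ i j, g.det * g' i j = t * g i j := by
    intro i j
    fin_cases i <;> fin_cases j
    · exact t1
    · exact t2
    · exact t3
    · exact t4
  have hgcd : 0 < Int.gcd g.det t := Int.gcd_pos_of_ne_zero_left _ h.ne'
  obtain ⟨D, t', hcop, hD, ht⟩ := Int.exists_gcd_one hgcd
  have hk : ((Int.gcd g.det t : ℕ) : ℤ) ≠ 0 := by exact_mod_cast hgcd.ne'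
  have hall' : ∀ i j, D * g' i j = t' * g i j := by
    intro i j
    have := hall i j
    have h2 : ((Int.gcd g.det t : ℕ) : ℤ) * (D * g' i j) = (Int.gcd g.det t : ℕ) * (t' * g i j) := by
      calc ((Int.gcd g.det t : ℕ) : ℤ) * (D * g' i j) = (D * (Int.gcd g.det t : ℕ)) * g' i j := by ring
        _ = (t' * (Int.gcd g.det t : ℕ)) * g i j := by rw [← hD, ← ht]; exact this
        _ = _ := by ring
    exact mul_left_cancel₀ hk h2
  have hcop1 : IsCoprime D t' := Int.isCoprime_iff_gcd_eq_one.2 hcop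
  have hD1 : D.natAbs = 1 := by
    apply hg
    intro i j
    rw [Int.natAbs_dvd]
    exact hcop1.dvd_of_dvd_mul_left ⟨g' i j, (hall' i j).symm⟩
  have ht1 : t'.natAbs = 1 := by
    apply hg'
    intro i j
    rw [Int.natAbs_dvd]
    exact hcop1.symm.dvd_of_dvd_mul_left ⟨g i j, (hall' i j)⟩
  have e1 : D * D = 1 := by
    rcases Int.natAbs_eq_iff.1 hD1 with h0 | h0 <;> rw [h0] <;> norm_num
  have e2 : t' * t' = 1 := by
    rcases Int.natAbs_eq_iff.1 ht1 with h0 | h0 <;> rw [h0] <;> norm_num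
  have e3 : D * D * g'.det = t' * t' * g.det := by
    rw [hd, hd']
    calc D * D * (g' 0 0 * g' 1 1 - g' 0 1 * g' 1 0)
        = (D * g' 0 0) * (D * g' 1 1) - (D * g' 0 1) * (D * g' 1 0) := by ring
      _ = (t' * g 0 0) * (t' * g 1 1) - (t' * g 0 1) * (t' * g 1 0) := by
          rw [hall', hall', hall', hall']
      _ = _ := by ring
  rw [e1, e2] at e3
  omega

private theorem gap_size (C₁ m : ℕ) (K : ℝ) (hK : 1 ≤ K) : ∃ C : ℕ, ∀ (N H Q S v : ℝ), 2 ≤ N →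
    3 ≤ H → H ≤ K * (N + 2) ^ 2 → 0 ≤ Q → Q ≤ K * (N + 2) ^ 2 → 0 < S →
    Real.exp (-(C₁ * Real.log H ^ C₁)) ≤ v → v ^ m * S ≤ Q ^ m →
    S ≤ Real.exp (C * Real.log (N + 2) ^ C) := by
  obtain ⟨M, hM⟩ := exists_nat_ge (Real.log K + 2)
  refine ⟨m * M + m * C₁ * M ^ C₁ + C₁ + 1, ?_⟩
  intro N H Q S v hN hH hHK hQ0 hQ hS hv hle
  have hL : 1 ≤ Real.log (N + 2) := by
    rw [Real.le_log_iff_exp_le (by linarith)]
    have := Real.exp_one_lt_d9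
    linarith
  set L := Real.log (N + 2) with hLdef
  have hK0 : 0 ≤ Real.log K := Real.log_nonneg hK
  have hlogK : Real.log (K * (N + 2) ^ 2) = Real.log K + 2 * L := by
    rw [Real.log_mul (by positivity) (by positivity), Real.log_pow, hLdef]
    push_cast
    ring
  have hML : Real.log K + 2 * L ≤ M * L := by nlinarith
  have hlogH : Real.log H ≤ M * L := by
    calc Real.log H ≤ Real.log (K * (N + 2) ^ 2) := Real.log_le_log (by linarith) hHK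
      _ ≤ M * L := by rw [hlogK]; exact hML
  have hlogH0 : 0 ≤ Real.log H := Real.log_nonneg (by linarith)
  have hQexp : Q ≤ Real.exp (M * L) := by
    calc Q ≤ K * (N + 2) ^ 2 := hQ
      _ = Real.exp (Real.log (K * (N + 2) ^ 2)) := (Real.exp_log (by positivity)).symm
      _ ≤ _ := Real.exp_le_exp.2 (by rw [hlogK]; exact hML)
  have h1 : Real.exp (-(C₁ * Real.log H ^ C₁)) ^ m * S ≤ Real.exp (M * L) ^ m := by
    calc Real.exp (-(C₁ * Real.log H ^ C₁)) ^ m * S ≤ v ^ m * S := by gcongr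
      _ ≤ Q ^ m := hle
      _ ≤ _ := by gcongr
  rw [← Real.exp_nat_mul, ← Real.exp_nat_mul] at h1
  have h2 : S ≤ Real.exp (m * (M * L) + m * (C₁ * Real.log H ^ C₁)) := by
    have h3 : Real.exp (m * (C₁ * Real.log H ^ C₁)) *
        (Real.exp (m * -(C₁ * Real.log H ^ C₁)) * S) ≤
        Real.exp (m * (C₁ * Real.log H ^ C₁)) * Real.exp (m * (M * L)) := by gcongr
    rw [← mul_assoc, ← Real.exp_add, ← Real.exp_add] at h3
    have h4 : (m : ℝ) * (C₁ * Real.log H ^ C₁) + m * -(C₁ * Real.log H ^ C₁) = 0 := by ring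
    rw [h4, Real.exp_zero, one_mul] at h3
    rw [add_comm]
    exact h3
  refine h2.trans (Real.exp_le_exp.2 ?_)
  have hLp : ∀ k : ℕ, k ≤ m * M + m * C₁ * M ^ C₁ + C₁ + 1 →
      L ^ k ≤ L ^ (m * M + m * C₁ * M ^ C₁ + C₁ + 1) := fun k hk => pow_le_pow_right₀ hL hk
  have h5 : (m : ℝ) * (M * L) ≤ (m * M) * L ^ (m * M + m * C₁ * M ^ C₁ + C₁ + 1) := by
    have := hLp 1 (by omega)
    rw [pow_one] at this
    calc (m : ℝ) * (M * L) = (m * M) * L := by ring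
      _ ≤ _ := by gcongr
  have h6 : (m : ℝ) * (C₁ * Real.log H ^ C₁) ≤
      (m * C₁ * M ^ C₁) * L ^ (m * M + m * C₁ * M ^ C₁ + C₁ + 1) := by
    have := hLp C₁ (by omega)
    calc (m : ℝ) * (C₁ * Real.log H ^ C₁) ≤ m * (C₁ * (M * L) ^ C₁) := by gcongr
      _ = (m * C₁ * M ^ C₁) * L ^ C₁ := by rw [mul_pow]; ring
      _ ≤ _ := by gcongr
  have h7 : 0 ≤ L ^ (m * M + m * C₁ * M ^ C₁ + C₁ + 1) := by positivity
  have h8 : 0 ≤ (C₁ : ℝ) * L ^ (m * M + m * C₁ * M ^ C₁ + C₁ + 1) := by positivity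
  push_cast
  nlinarith

theorem gap (z₀ z₁ : ℍ) (hq : QM (jInv z₀)) (C₀ : ℝ) {m : ℕ} (hm : 0 < m) : ∃ C : ℕ,
    ∀ (g g' : Matrix (Fin 2) (Fin 2) ℤ) (T T' : ℝ), 1 ≤ T → 1 ≤ T' → 0 < g.det → g.det < g'.det →
      Prim g → Prim g' → (∀ i j, |(g i j : ℝ)| ≤ C₀ * g.det) →
      (∀ i j, |(g' i j : ℝ)| ≤ C₀ * g'.det) →
      ‖(z₁ : ℂ) * ((g 1 0 : ℂ) * z₀ + (g 1 1 : ℂ)) - ((g 0 0 : ℂ) * z₀ + (g 0 1 : ℂ))‖ ^ m * T ≤
        (C₀ * g.det) ^ m →
      ‖(z₁ : ℂ) * ((g' 1 0 : ℂ) * z₀ + (g' 1 1 : ℂ)) -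
        ((g' 0 0 : ℂ) * z₀ + (g' 0 1 : ℂ))‖ ^ m * T' ≤ (C₀ * g'.det) ^ m →
      min T T' ≤ Real.exp (C * Real.log (g'.det + 2) ^ C) := by
  obtain ⟨C₁, hC₁⟩ := hq z₀ rfl
  set Z : ℝ := ‖(z₀ : ℂ)‖ + 1 with hZ
  have hZ1 : 1 ≤ Z := by rw [hZ]; have := norm_nonneg (z₀ : ℂ); linarith
  set K : ℝ := 4 * C₀ ^ 2 * Z + 3 with hKdef
  have hK1 : 1 ≤ K := by rw [hKdef]; have : 0 ≤ 4 * C₀ ^ 2 * Z := by positivity
                         linarith
  obtain ⟨C, hC⟩ := gap_size C₁ m K hK1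
  refine ⟨C, ?_⟩
  intro g g' T T' hT hT' hdet hdet' hg hg' hent hent' he he'
  have hn1 : (1 : ℝ) ≤ (g.det : ℝ) := by exact_mod_cast hdet
  have hn2 : (2 : ℝ) ≤ (g'.det : ℝ) := by
    have : (2 : ℤ) ≤ g'.det := by omega
    exact_mod_cast this
  have hnn : (g.det : ℝ) ≤ (g'.det : ℝ) := by exact_mod_cast hdet'.le
  set N : ℝ := (g'.det : ℝ) with hN
  set N₁ : ℝ := (g.det : ℝ) with hN₁
  have hC0 : 0 ≤ C₀ := by
    have h1 : 0 ≤ C₀ * N₁ := (abs_nonneg _).trans (hent 0 0)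
    by_contra h
    push Not at h
    nlinarith
  have hle : C₀ * N₁ ≤ C₀ * N := by gcongr
  have hB : ∀ i j, |(g i j : ℝ)| ≤ C₀ * N := fun i j => (hent i j).trans hle
  have hCN : 0 ≤ C₀ * N := by positivity
  -- the quadratic polynomial
  set a : ℤ := g 0 0 * g' 1 0 - g' 0 0 * g 1 0 with ha
  set b : ℤ := g 0 0 * g' 1 1 + g 0 1 * g' 1 0 - g' 0 0 * g 1 1 - g' 0 1 * g 1 0 with hb
  set c : ℤ := g 0 1 * g' 1 1 - g' 0 1 * g 1 1 with hc
  have hne : ¬ (a = 0 ∧ b = 0 ∧ c = 0) := by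
    rintro ⟨h1, h2, h3⟩
    exact gap_ne g g' hdet hdet' hg hg' h1 h2 h3
  have hprod : ∀ i j k l, |(g i j : ℝ) * (g' k l : ℝ)| ≤ (C₀ * N) ^ 2 := by
    intro i j k l
    rw [abs_mul, sq]
    exact mul_le_mul (hB i j) (hent' k l) (abs_nonneg _) hCN
  have hKN : 4 * (C₀ * N) ^ 2 + 3 ≤ K * (N + 2) ^ 2 := by
    have h1 : 4 * (C₀ * N) ^ 2 ≤ 4 * C₀ ^ 2 * Z * (N + 2) ^ 2 := by
      have h2 : N ^ 2 ≤ (N + 2) ^ 2 := by gcongr; linarith
      have h3 : 0 ≤ C₀ ^ 2 := by positivity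
      have h4 : C₀ ^ 2 * 1 ≤ C₀ ^ 2 * Z := by gcongr
      calc 4 * (C₀ * N) ^ 2 = 4 * (C₀ ^ 2 * 1) * N ^ 2 := by ring
        _ ≤ 4 * (C₀ ^ 2 * Z) * (N + 2) ^ 2 := by gcongr
        _ = _ := by ring
    have h5 : (3 : ℝ) ≤ 3 * (N + 2) ^ 2 := by nlinarith
    rw [hKdef, add_mul]
    linarith
  set H : ℝ := 4 * (C₀ * N) ^ 2 + 3 with hH
  have hsq : 0 ≤ (C₀ * N) ^ 2 := by positivity
  have haH : |(a : ℝ)| ≤ H := by
    have h1 := abs_le.1 (hprod 0 0 1 0)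
    have h2 := abs_le.1 (hprod 1 0 0 0)
    rw [ha, hH]
    push_cast
    rw [abs_le]
    constructor <;> nlinarith
  have hbH : |(b : ℝ)| ≤ H := by
    have h1 := abs_le.1 (hprod 0 0 1 1)
    have h2 := abs_le.1 (hprod 0 1 1 0)
    have h3 := abs_le.1 (hprod 1 1 0 0)
    have h4 := abs_le.1 (hprod 1 0 0 1)
    rw [hb, hH]
    push_cast
    rw [abs_le]
    constructor <;> nlinarith
  have hcH : |(c : ℝ)| ≤ H := by
    have h1 := abs_le.1 (hprod 0 1 1 1)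
    have h2 := abs_le.1 (hprod 1 1 0 1)
    rw [hc, hH]
    push_cast
    rw [abs_le]
    constructor <;> nlinarith
  have hH3 : 3 ≤ H := by rw [hH]; linarith
  have hlow := hC₁ a b c H hH3 haH hbH hcH hne
  -- the upper bound
  set D : ℂ := (g 1 0 : ℂ) * z₀ + (g 1 1 : ℂ) with hD
  set D' : ℂ := (g' 1 0 : ℂ) * z₀ + (g' 1 1 : ℂ) with hD'
  set ε : ℂ := (z₁ : ℂ) * D - ((g 0 0 : ℂ) * z₀ + (g 0 1 : ℂ)) with hε
  set ε' : ℂ := (z₁ : ℂ) * D' - ((g' 0 0 : ℂ) * z₀ + (g' 0 1 : ℂ)) with hε'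
  have hqe : (a : ℂ) * (z₀ : ℂ) ^ 2 + b * (z₀ : ℂ) + c = ε' * D - ε * D' := by
    rw [hε, hε', hD, hD', ha, hb, hc]
    push_cast
    ring
  have hDn : ‖D‖ ≤ C₀ * N * Z := by
    rw [hD, hZ]
    calc ‖(g 1 0 : ℂ) * z₀ + (g 1 1 : ℂ)‖ ≤ ‖(g 1 0 : ℂ) * z₀‖ + ‖(g 1 1 : ℂ)‖ := norm_add_le _ _
      _ = |(g 1 0 : ℝ)| * ‖(z₀ : ℂ)‖ + |(g 1 1 : ℝ)| := by
          rw [norm_mul, Complex.norm_intCast, Complex.norm_intCast]
      _ ≤ C₀ * N * ‖(z₀ : ℂ)‖ + C₀ * N := by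
          gcongr
          · exact hB 1 0
          · exact hB 1 1
      _ = _ := by ring
  have hDn' : ‖D'‖ ≤ C₀ * N * Z := by
    rw [hD', hZ]
    calc ‖(g' 1 0 : ℂ) * z₀ + (g' 1 1 : ℂ)‖ ≤ ‖(g' 1 0 : ℂ) * z₀‖ + ‖(g' 1 1 : ℂ)‖ :=
          norm_add_le _ _
      _ = |(g' 1 0 : ℝ)| * ‖(z₀ : ℂ)‖ + |(g' 1 1 : ℝ)| := by
          rw [norm_mul, Complex.norm_intCast, Complex.norm_intCast]
      _ ≤ C₀ * N * ‖(z₀ : ℂ)‖ + C₀ * N := by
          gcongr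
          · exact hent' 1 0
          · exact hent' 1 1
      _ = _ := by ring
  have hS0 : 0 < min T T' := lt_min (by linarith) (by linarith)
  have hS1 : ‖ε‖ ^ m * min T T' ≤ (C₀ * N) ^ m := by
    calc ‖ε‖ ^ m * min T T' ≤ ‖ε‖ ^ m * T := by
          gcongr
          exact min_le_left _ _
      _ ≤ (C₀ * N₁) ^ m := he
      _ ≤ _ := by gcongr
  have hS2 : ‖ε'‖ ^ m * min T T' ≤ (C₀ * N) ^ m := by
    calc ‖ε'‖ ^ m * min T T' ≤ ‖ε'‖ ^ m * T' := by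
          gcongr
          exact min_le_right _ _
      _ ≤ _ := he'
  have hmax : (max ‖ε‖ ‖ε'‖) ^ m * min T T' ≤ (C₀ * N) ^ m := by
    rcases le_total ‖ε‖ ‖ε'‖ with h | h
    · rw [max_eq_right h]; exact hS2
    · rw [max_eq_left h]; exact hS1
  have hqn : ‖(a : ℂ) * (z₀ : ℂ) ^ 2 + b * (z₀ : ℂ) + c‖ ≤ 2 * (C₀ * N * Z) * max ‖ε‖ ‖ε'‖ := by
    rw [hqe]
    calc ‖ε' * D - ε * D'‖ ≤ ‖ε' * D‖ + ‖ε * D'‖ := norm_sub_le _ _
      _ = ‖ε'‖ * ‖D‖ + ‖ε‖ * ‖D'‖ := by rw [norm_mul, norm_mul]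
      _ ≤ max ‖ε‖ ‖ε'‖ * (C₀ * N * Z) + max ‖ε‖ ‖ε'‖ * (C₀ * N * Z) := by
          gcongr
          · exact le_max_right _ _
          · exact le_max_left _ _
      _ = _ := by ring
  set Q : ℝ := 2 * (C₀ * N * Z) * (C₀ * N) with hQ
  have hQ0 : 0 ≤ Q := by positivity
  have hQK : Q ≤ K * (N + 2) ^ 2 := by
    have h2 : N ^ 2 ≤ (N + 2) ^ 2 := by gcongr; linarith
    have h6 : 0 ≤ C₀ ^ 2 * Z * (N + 2) ^ 2 := by positivity
    have h7 : 0 ≤ 3 * (N + 2) ^ 2 := by positivity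
    calc Q = 2 * (C₀ ^ 2 * Z) * N ^ 2 := by rw [hQ]; ring
      _ ≤ 2 * (C₀ ^ 2 * Z) * (N + 2) ^ 2 := by gcongr
      _ ≤ K * (N + 2) ^ 2 := by rw [hKdef]; nlinarith
  refine hC N H Q (min T T') (‖(a : ℂ) * (z₀ : ℂ) ^ 2 + b * (z₀ : ℂ) + c‖) hn2 hH3 hKN hQ0 hQK hS0
    hlow ?_
  calc ‖(a : ℂ) * (z₀ : ℂ) ^ 2 + b * (z₀ : ℂ) + c‖ ^ m * min T T'
      ≤ (2 * (C₀ * N * Z) * max ‖ε‖ ‖ε'‖) ^ m * min T T' := by gcongr
    _ = (2 * (C₀ * N * Z)) ^ m * ((max ‖ε‖ ‖ε'‖) ^ m * min T T') := by rw [mul_pow]; ring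
    _ ≤ (2 * (C₀ * N * Z)) ^ m * (C₀ * N) ^ m := by gcongr
    _ = Q ^ m := by rw [hQ, mul_pow (2 * (C₀ * N * Z)) (C₀ * N) m]

end Pool.Agent.LGO
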