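import Mathlib
import Pool.Agent.LGO.S.CuspA
import Pool.Agent.LGO.S.Near
import Pool.Agent.LGO.S.Gap
import Pool.Agent.LGO.S.CorePt
import Pool.Agent.LGO.Q.Quad
import Pool.Agent.LGO.Gal.Fin
import Pool.Agent.LGO.Gal.NCM

/-!
# LGO/S: at a point at infinity of type A the exceptional degrees are very sparse

Proof of `sparse`.  By symmetry (`TypeA V i a c b γ β`; `mdeg_symm`) let `β` be not CM.  `F, C₁, m₁` from `cuspA`,
`A, C₂, E₂` from `core_pt`.  The set of pairs `(s β, s γ)`, `s` an automorphism of `ℂ`, is finite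
(roots of the minimal polynomials); let `p` be their number, and choose `z₀, z₁ : ℍ` with `jInv z₀ = s β`,
`jInv z₁ = s γ` for each of them (`j_surj`); `s β` is algebraic and not CM, so `QM (s β)` (`quad`).  Let `C₃` be
larger than the constants of `near z₀ z₁ C₁ m₁` and of `gap z₀ z₁ .. C m'` for all these pairs (make `m'` common:
product; or keep the constants indexed by the pair).

Call `x ∈ V` (with the three hypotheses NCM, isogenous, integral) bad if `‖s F(x)‖ > exp (nd i x ^ (1/A))` for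
some `s`, and let `S = {mdeg x_b x_c | x bad, mdeg x_b x_c > N₀}` with a large constant `N₀`.  Let
`E = E₂ ∪ {x ∈ V | IsogDeg N x_b x_c for some 0 < N ≤ N₀}`, finite by `finite_isogDeg_le` (`LGO/Gal/Fin.lean`, with
`hmod`).  If `x ∉ E` and `mdeg x_b x_c ∉ S` then `x` is not bad, and `core_pt` gives `Concl i C₂ x`.

The gap: let `N < N'` in `S` belong to bad `x`, `x'` and automorphisms `s`, `s'` with the same pair
`(s β, s γ) = (s' β, s' γ)`; `T = ‖s F(x)‖ > exp (nd i x ^ (1/A)) ≥ exp (N ^ (1/A))`, the same for `T'`, `N'`.  For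
`N > N₀` these are larger than all constants, so `cuspA` and `near` (for `Y = s x_b`, `Z = s x_c`;
`mdeg_map`, `isogDeg_map`) give primitive `g`, `g'` with determinants `N < N'` as in `gap`:
`min T T' ≤ exp (C₃ (log (N' + 2)) ^ C₃)`.  `T' > exp (N' ^ (1/A))` is larger than this for `N' > N₀`.  So
`exp (N ^ (1/A)) < T ≤ exp (C₃ (log (N' + 2)) ^ C₃)`, `N ^ (1/A) < C₃ (log (N' + 2)) ^ C₃`, which gives
`N' > exp (N ^ (1/C))` for a constant `C` and `N > N₀`.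
So for `X ≥ 1` the elements of `S` in `[X, exp (X ^ (1/C))]` belong to different pairs (two of them with the same
pair satisfy `N' > exp (N ^ (1/C)) ≥ exp (X ^ (1/C))`): at most `p` elements.
-/

namespace Pool.Agent.LGO

open MvPolynomial UpperHalfPlane Filter Topology Pool.Agent.Hhelper14.ZPL Pool.Agent.Hhelper14.ZP

/-- a set of natural numbers with at most `C` elements in each interval `[X, exp (X ^ (1/C))]` -/
def Sparse (C : ℕ) (S : Set ℕ) : Prop :=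
  ∀ X : ℝ, 1 ≤ X → {N ∈ S | X ≤ (N : ℝ) ∧ (N : ℝ) ≤ Real.exp (X ^ (1 / (C : ℝ)))}.encard ≤ C

theorem Sparse_concl_mono {n : ℕ} {i : Fin 3 → Fin n} {C C' : ℕ} {x : Fin n → ℂ}
    (h : Concl i C x) (hC : C ≤ C') (hC' : 0 < C') : Concl i C' x := by
  intro K _ hK
  obtain ⟨h1, h2⟩ := h K hK
  have hd : (1 : ℝ) ≤ Module.finrank ℚ K := by exact_mod_cast Module.finrank_pos
  have hCC : (C : ℝ) ≤ C' := by exact_mod_cast hC
  have hC1 : (1 : ℝ) ≤ C' := by exact_mod_cast hC'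
  have h3 : ((C : ℝ) * Module.finrank ℚ K) ^ C ≤ ((C' : ℝ) * Module.finrank ℚ K) ^ C' := by
    calc ((C : ℝ) * Module.finrank ℚ K) ^ C ≤ ((C' : ℝ) * Module.finrank ℚ K) ^ C := by gcongr
      _ ≤ ((C' : ℝ) * Module.finrank ℚ K) ^ C' :=
          pow_le_pow_right₀ (one_le_mul_of_one_le_of_one_le hC1 hd) hC
  exact ⟨fun a b => (h1 a b).trans h3, fun a s => (h2 a s).trans (Real.exp_le_exp.mpr h3)⟩

theorem Sparse_real {A G C : ℕ} (hA : 0 < A) (hG : 0 < G) (hC : A * G < C) (K : ℝ) :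
    ∃ x₀ : ℝ, 1 ≤ x₀ ∧ ∀ x : ℝ, x₀ ≤ x →
      (G : ℝ) * (x ^ (1 / (C : ℝ)) + 2) ^ G ≤ x ^ (1 / (A : ℝ)) ∧
      Real.log (x + 2) ≤ x ^ (1 / (C : ℝ)) + 2 ∧ K ≤ x ^ (1 / (A : ℝ)) := by
  have hA0 : (0 : ℝ) < A := by exact_mod_cast hA
  have hG0 : (0 : ℝ) < G := by exact_mod_cast hG
  have hC0 : (0 : ℝ) < C := by exact_mod_cast (Nat.zero_le _).trans_lt hC
  have hC1 : (A : ℝ) * G < C := by exact_mod_cast hC
  have hδ : 0 < 1 / (A : ℝ) - G / C := by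
    rw [sub_pos, div_lt_div_iff₀ hC0 hA0]
    linarith
  have e1 := (tendsto_rpow_atTop hδ).eventually_ge_atTop ((G : ℝ) * 3 ^ G)
  have e2 := (isLittleO_log_rpow_atTop (one_div_pos.mpr hC0)).bound (one_pos)
  have e3 := (tendsto_rpow_atTop (one_div_pos.mpr hA0)).eventually_ge_atTop K
  obtain ⟨x₁, hx₁⟩ := Filter.eventually_atTop.mp (e1.and (e2.and e3))
  refine ⟨max x₁ 1, le_max_right _ _, fun x hx => ?_⟩
  have hx1 : 1 ≤ x := (le_max_right _ _).trans hx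
  have hx0 : 0 < x := by linarith
  obtain ⟨h1, h2, h3⟩ := hx₁ x ((le_max_left _ _).trans hx)
  have hy1 : 1 ≤ x ^ (1 / (C : ℝ)) := Real.one_le_rpow hx1 (one_div_pos.mpr hC0).le
  refine ⟨?_, ?_, h3⟩
  · have h4 : (x ^ (1 / (C : ℝ)) + 2) ^ G ≤ 3 ^ G * x ^ ((G : ℝ) / C) := by
      have h5 : (x ^ (1 / (C : ℝ)) + 2) ^ G ≤ (3 * x ^ (1 / (C : ℝ))) ^ G := by
        gcongr
        linarith
      rw [mul_pow, ← Real.rpow_natCast (x ^ (1 / (C : ℝ))) G, ← Real.rpow_mul hx0.le] at h5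
      have h6 : 1 / (C : ℝ) * G = G / C := by ring
      rwa [h6] at h5
    calc (G : ℝ) * (x ^ (1 / (C : ℝ)) + 2) ^ G ≤ G * (3 ^ G * x ^ ((G : ℝ) / C)) := by gcongr
      _ = (G * 3 ^ G) * x ^ ((G : ℝ) / C) := by ring
      _ ≤ x ^ (1 / (A : ℝ) - G / C) * x ^ ((G : ℝ) / C) := by gcongr
      _ = x ^ (1 / (A : ℝ)) := by rw [← Real.rpow_add hx0]; congr 1; ring
  · have h4 : Real.log (x + 2) ≤ Real.log 3 + Real.log x := by
      rw [← Real.log_mul (by norm_num) hx0.ne']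
      exact Real.log_le_log (by linarith) (by linarith)
    have h5 : Real.log 3 ≤ 2 := by
      have := Real.log_le_sub_one_of_pos (show (0 : ℝ) < 3 by norm_num)
      linarith
    have h6 : Real.log x ≤ x ^ (1 / (C : ℝ)) := by
      have h7 := (le_abs_self (Real.log x)).trans h2
      rwa [one_mul, Real.norm_of_nonneg (by positivity)] at h7
    linarith

/-- two points near the same pair of values -/
theorem Sparse_pair (z₀ z₁ : ℍ) (hq : QM (jInv z₀)) (C₁ : ℝ) {m₁ : ℕ} (hm₁ : 0 < m₁) :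
    ∃ (T₀ : ℝ) (G : ℕ), ∀ (Y Z Y' Z' : ℂ) (T T' : ℝ), T₀ ≤ T → T₀ ≤ T' →
      (∃ N, 0 < N ∧ IsogDeg N Y Z) → (∃ N, 0 < N ∧ IsogDeg N Y' Z') →
      ‖Y - jInv z₀‖ ^ m₁ * T ≤ C₁ → ‖Z - jInv z₁‖ ^ m₁ * T ≤ C₁ →
      ‖Y' - jInv z₀‖ ^ m₁ * T' ≤ C₁ → ‖Z' - jInv z₁‖ ^ m₁ * T' ≤ C₁ →
      mdeg Y Z < mdeg Y' Z' →
      min T T' ≤ Real.exp (G * Real.log ((mdeg Y' Z' : ℝ) + 2) ^ G) := by
  obtain ⟨C, m', hC, hm', hnear⟩ := near z₀ z₁ C₁ hm₁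
  obtain ⟨G, hgap⟩ := gap z₀ z₁ hq C hm'
  refine ⟨C, G, fun Y Z Y' Z' T T' hT hT' hi hi' h1 h2 h3 h4 hlt => ?_⟩
  obtain ⟨g, hgd, hg0, hgp, hge, hgn⟩ := hnear T Y Z hT hi h1 h2
  obtain ⟨g', hgd', hg0', hgp', hge', hgn'⟩ := hnear T' Y' Z' hT' hi' h3 h4
  have h5 := hgap g g' T T' (hC.trans hT) (hC.trans hT') hg0 (by rw [hgd, hgd']; exact_mod_cast hlt)
    hgp hgp' hge hge' hgn hgn'
  rw [hgd'] at h5
  push_cast at h5
  exact h5

theorem Sparse_range_finite {β γ : ℂ} (hβ : IsAlgebraic ℚ β) (hγ : IsAlgebraic ℚ γ) :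
    (Set.range fun s : ℂ ≃+* ℂ => (s β, s γ)).Finite := by
  classical
  have key : ∀ {z : ℂ}, IsAlgebraic ℚ z → (Set.range fun s : ℂ ≃+* ℂ => s z).Finite := by
    intro z hz
    have hint : IsIntegral ℚ z := hz.isIntegral
    have hP0 : minpoly ℚ z ≠ 0 := minpoly.ne_zero hint
    apply Set.Finite.subset (((minpoly ℚ z).aroots ℂ).toFinset.finite_toSet)
    rintro _ ⟨s, rfl⟩
    simp only [Finset.mem_coe, Multiset.mem_toFinset]
    rw [Polynomial.mem_aroots]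
    refine ⟨hP0, ?_⟩
    have h1 := congrArg s (minpoly.aeval ℚ z)
    rw [map_zero] at h1
    rw [← h1, Polynomial.aeval_def, Polynomial.aeval_def]
    have h2 := Polynomial.hom_eval₂ (minpoly ℚ z) (algebraMap ℚ ℂ) (s : ℂ →+* ℂ) z
    have h3 : ((s : ℂ →+* ℂ).comp (algebraMap ℚ ℂ)) = algebraMap ℚ ℂ := RingHom.ext_rat _ _
    rw [h3] at h2
    exact h2.symm
  refine Set.Finite.subset ((key hβ).prod (key hγ)) ?_
  rintro _ ⟨s, rfl⟩
  exact ⟨⟨s, rfl⟩, ⟨s, rfl⟩⟩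

theorem Sparse_main {n : ℕ} {V : Set (Fin n → ℂ)} (hV : Pool.Agent.Hhelper14.ZPL.IsIrredClosed V)
    (hVk : KClosed V) (hdim : Pool.Agent.Hhelper14.ZPL.dim V = 1) (i : Fin 3 → Fin n)
    (hmod : ∀ a b, a ≠ b → ∀ g : GL (Fin 2) ℚ, 0 < g.det.val →
      ∃ x ∈ V, ¬ ∃ τ : ℍ, x (i a) = jInv τ ∧ x (i b) = jInv (gact g τ))
    {a b c : Fin 3} {β γ : ℂ} (h : TypeA V i a b c β γ) (hn : NCM β) :
    ∃ (C : ℕ) (E : Set (Fin n → ℂ)) (S : Set ℕ), 0 < C ∧ E.Finite ∧ Sparse C S ∧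
      ∀ x ∈ V, x ∉ E → mdeg (x (i b)) (x (i c)) ∉ S → (∀ a, NCM (x (i a))) →
      (∀ a b, ∃ N, 0 < N ∧ IsogDeg N (x (i a)) (x (i b))) → (∀ a, IsIntegral ℤ (x (i a))) →
      Concl i C x := by
  obtain ⟨hβ, hγ, F, C₁, m₁, hF, hC₁, hm₁, hcusp⟩ := cuspA hV hVk hdim i h
  obtain ⟨A, C₂, E₂, hA, hE₂, hcore⟩ := core_pt hV hVk hdim i hF
  set P : Set (ℂ × ℂ) := Set.range fun s : ℂ ≃+* ℂ => (s β, s γ) with hPdef
  have hP : P.Finite := Sparse_range_finite hβ hγ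
  have hpair : ∀ q : P, ∃ (T₀ : ℝ) (G : ℕ), ∀ (Y Z Y' Z' : ℂ) (T T' : ℝ), T₀ ≤ T → T₀ ≤ T' →
      (∃ N, 0 < N ∧ IsogDeg N Y Z) → (∃ N, 0 < N ∧ IsogDeg N Y' Z') →
      ‖Y - q.1.1‖ ^ m₁ * T ≤ C₁ → ‖Z - q.1.2‖ ^ m₁ * T ≤ C₁ →
      ‖Y' - q.1.1‖ ^ m₁ * T' ≤ C₁ → ‖Z' - q.1.2‖ ^ m₁ * T' ≤ C₁ →
      mdeg Y Z < mdeg Y' Z' →
      min T T' ≤ Real.exp (G * Real.log ((mdeg Y' Z' : ℝ) + 2) ^ G) := by
    rintro ⟨_, s, rfl⟩
    obtain ⟨z₀, hz₀⟩ := Pool.Agent.Hhelper14.ZPL.j_surj (s β)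
    obtain ⟨z₁, hz₁⟩ := Pool.Agent.Hhelper14.ZPL.j_surj (s γ)
    have hsβ : IsAlgebraic ℚ (s β) := by
      obtain ⟨p, hp0, hp⟩ := hβ
      refine ⟨p, hp0, ?_⟩
      have h2 := Polynomial.hom_eval₂ p (algebraMap ℚ ℂ) (s : ℂ →+* ℂ) β
      have h3 : ((s : ℂ →+* ℂ).comp (algebraMap ℚ ℂ)) = algebraMap ℚ ℂ := RingHom.ext_rat _ _
      rw [h3, ← Polynomial.aeval_def, hp, map_zero] at h2
      exact h2.symm
    have hq : QM (s β) := quad hsβ fun τ hτ => by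
      rw [← ncm_jInv, hτ]
      exact hn.map s
    obtain ⟨T₀, G, h1⟩ := Sparse_pair z₀ z₁ (by rw [hz₀]; exact hq) C₁ hm₁
    refine ⟨T₀, G, ?_⟩
    rw [hz₀, hz₁] at h1
    exact h1
  choose T₀ G hTG using hpair
  have : Finite P := hP
  obtain ⟨G₁, hG₁⟩ := (Set.finite_range G).bddAbove
  obtain ⟨T₁, hT₁⟩ := (Set.finite_range T₀).bddAbove
  set G₂ : ℕ := max G₁ 1 with hG₂
  have hGG : ∀ q, G q ≤ G₂ := fun q => (hG₁ ⟨q, rfl⟩).trans (le_max_left _ _)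
  have hTT : ∀ q, T₀ q ≤ T₁ := fun q => hT₁ ⟨q, rfl⟩
  set C : ℕ := max (max C₂ (A * G₂ + 1)) P.ncard with hCdef
  have hC₂C : C₂ ≤ C := (le_max_left _ _).trans (le_max_left _ _)
  have hAG : A * G₂ < C := by
    have h1 : A * G₂ + 1 ≤ C := (le_max_right _ _).trans (le_max_left _ _)
    omega
  have hCP : P.ncard ≤ C := le_max_right _ _
  have hC0 : 0 < C := (Nat.zero_le _).trans_lt hAG
  obtain ⟨x₀, hx₀, hx₀'⟩ := Sparse_real hA (lt_of_lt_of_le one_pos (le_max_right G₁ 1)) hAG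
    (max C₁ T₁)
  set N₀ : ℕ := ⌈x₀⌉₊ with hN₀
  -- the set of the exceptional degrees
  set S : Set ℕ := {N | ∃ x ∈ V, (∀ a b, ∃ N, 0 < N ∧ IsogDeg N (x (i a)) (x (i b))) ∧
    (∃ s : ℂ ≃+* ℂ, Real.exp (nd i x ^ (1 / (A : ℝ))) < ‖s (aeval (x ∘ i) F : ℂ)‖) ∧
    mdeg (x (i b)) (x (i c)) = N ∧ N₀ < N} with hS
  have hdat : ∀ N ∈ S, ∃ q : ℂ × ℂ, q ∈ P ∧ x₀ ≤ (N : ℝ) ∧ ∃ (T : ℝ) (Y Z : ℂ),
      Real.exp ((N : ℝ) ^ (1 / (A : ℝ))) < T ∧ (∃ N, 0 < N ∧ IsogDeg N Y Z) ∧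
      ‖Y - q.1‖ ^ m₁ * T ≤ C₁ ∧ ‖Z - q.2‖ ^ m₁ * T ≤ C₁ ∧ mdeg Y Z = N := by
    rintro N ⟨x, hx, hisog, ⟨s, hs⟩, hN, hNN⟩
    have hxN : x₀ ≤ (N : ℝ) := (Nat.le_ceil x₀).trans (by exact_mod_cast hNN.le)
    have hN0 : (0 : ℝ) ≤ N := Nat.cast_nonneg _
    have hnd : (N : ℝ) ≤ nd i x := by
      have h1 : (mdeg (x (i b)) (x (i c)) : ℝ) ≤ ∑ b', (mdeg (x (i b)) (x (i b')) : ℝ) :=
        Finset.single_le_sum (f := fun b' => (mdeg (x (i b)) (x (i b')) : ℝ))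
          (fun _ _ => Nat.cast_nonneg _) (Finset.mem_univ c)
      have h2 : ∑ b', (mdeg (x (i b)) (x (i b')) : ℝ) ≤
          ∑ a', ∑ b', (mdeg (x (i a')) (x (i b')) : ℝ) :=
        Finset.single_le_sum (f := fun a' => ∑ b', (mdeg (x (i a')) (x (i b')) : ℝ))
          (fun _ _ => Finset.sum_nonneg fun _ _ => Nat.cast_nonneg _) (Finset.mem_univ b)
      rw [nd, ← hN]
      linarith
    have hT : Real.exp ((N : ℝ) ^ (1 / (A : ℝ))) < ‖s (aeval (x ∘ i) F : ℂ)‖ := by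
      refine lt_of_le_of_lt (Real.exp_le_exp.mpr ?_) hs
      exact Real.rpow_le_rpow hN0 hnd (by positivity)
    have hK := (hx₀' N hxN).2.2
    have hC₁T : C₁ ≤ ‖s (aeval (x ∘ i) F : ℂ)‖ := by
      have h1 := Real.add_one_le_exp ((N : ℝ) ^ (1 / (A : ℝ)))
      have h2 := le_max_left C₁ T₁
      linarith
    obtain ⟨-, h1, h2⟩ := hcusp s x hx hC₁T
    obtain ⟨M, hM, hMi⟩ := hisog b c
    refine ⟨(s β, s γ), ⟨s, rfl⟩, hxN, _, s (x (i b)), s (x (i c)), hT,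
      ⟨M, hM, isogDeg_map s hM hMi⟩, h1, h2, ?_⟩
    rw [mdeg_map, hN]
  choose! f hfP hfx T Y Z hTN hisog hY hZ hmd using hdat
  have hkey : ∀ N ∈ S, ∀ N' ∈ S, N < N' → f N = f N' →
      Real.exp ((N : ℝ) ^ (1 / (C : ℝ))) < (N' : ℝ) := by
    intro N hN N' hN' hlt hff
    by_contra hcon
    rw [not_lt] at hcon
    have hK := (hx₀' N (hfx N hN)).2.2
    have hK' := (hx₀' N' (hfx N' hN')).2.2
    have hT1 : T₀ ⟨f N, hfP N hN⟩ ≤ T N := by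
      have h1 := Real.add_one_le_exp ((N : ℝ) ^ (1 / (A : ℝ)))
      have h2 := le_max_right C₁ T₁
      have h3 := hTN N hN
      have h4 := hTT ⟨f N, hfP N hN⟩
      linarith
    have hT1' : T₀ ⟨f N, hfP N hN⟩ ≤ T N' := by
      have h1 := Real.add_one_le_exp ((N' : ℝ) ^ (1 / (A : ℝ)))
      have h2 := le_max_right C₁ T₁
      have h3 := hTN N' hN'
      have h4 := hTT ⟨f N, hfP N hN⟩
      linarith
    have hY' := hY N' hN'
    have hZ' := hZ N' hN'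
    rw [← hff] at hY' hZ'
    have hmin := hTG ⟨f N, hfP N hN⟩ (Y N) (Z N) (Y N') (Z N') (T N) (T N') hT1 hT1'
      (hisog N hN) (hisog N' hN') (hY N hN) (hZ N hN) hY' hZ'
      (by rw [hmd N hN, hmd N' hN']; exact hlt)
    rw [hmd N' hN'] at hmin
    have hN'1 : (1 : ℝ) ≤ N' := hx₀.trans (hfx N' hN')
    have hN1 : (1 : ℝ) ≤ N := hx₀.trans (hfx N hN)
    have hlog1 : 1 ≤ Real.log ((N' : ℝ) + 2) := by
      rw [Real.le_log_iff_exp_le (by linarith)]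
      have := Real.exp_one_lt_d9
      linarith
    have hGq : ((G ⟨f N, hfP N hN⟩ : ℕ) : ℝ) * Real.log ((N' : ℝ) + 2) ^ G ⟨f N, hfP N hN⟩ ≤
        (G₂ : ℝ) * Real.log ((N' : ℝ) + 2) ^ G₂ := by
      have h1 : ((G ⟨f N, hfP N hN⟩ : ℕ) : ℝ) ≤ G₂ := by exact_mod_cast hGG _
      exact mul_le_mul h1 (pow_le_pow_right₀ hlog1 (hGG _)) (by positivity) (by positivity)
    have hmin' : min (T N) (T N') ≤ Real.exp ((G₂ : ℝ) * Real.log ((N' : ℝ) + 2) ^ G₂) :=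
      hmin.trans (Real.exp_le_exp.mpr hGq)
    have hlogN : Real.log ((N' : ℝ) + 2) ≤ (N : ℝ) ^ (1 / (C : ℝ)) + 2 := by
      rw [Real.log_le_iff_le_exp (by linarith), Real.exp_add]
      have h1 : 1 ≤ Real.exp ((N : ℝ) ^ (1 / (C : ℝ))) := Real.one_le_exp (by positivity)
      have h2 : 3 ≤ Real.exp 2 := by
        have := Real.add_one_le_exp (2 : ℝ)
        linarith
      nlinarith
    have hb1 : Real.exp ((G₂ : ℝ) * Real.log ((N' : ℝ) + 2) ^ G₂) ≤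
        Real.exp ((N : ℝ) ^ (1 / (A : ℝ))) := by
      apply Real.exp_le_exp.mpr
      refine le_trans ?_ (hx₀' N (hfx N hN)).1
      gcongr
    have hb2 : Real.exp ((G₂ : ℝ) * Real.log ((N' : ℝ) + 2) ^ G₂) ≤
        Real.exp ((N' : ℝ) ^ (1 / (A : ℝ))) := by
      apply Real.exp_le_exp.mpr
      refine le_trans ?_ (hx₀' N' (hfx N' hN')).1
      have h1 := (hx₀' N' (hfx N' hN')).2.1
      gcongr
    rcases min_le_iff.mp hmin' with h1 | h1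
    · exact absurd (hTN N hN) (not_lt.mpr (h1.trans hb1))
    · exact absurd (hTN N' hN') (not_lt.mpr (h1.trans hb2))
  have hsp : Sparse C S := by
    intro X hX
    have hinj : Set.InjOn f {N ∈ S | X ≤ (N : ℝ) ∧ (N : ℝ) ≤ Real.exp (X ^ (1 / (C : ℝ)))} := by
      have hlt : ∀ N ∈ S, ∀ N' ∈ S, X ≤ (N : ℝ) → (N' : ℝ) ≤ Real.exp (X ^ (1 / (C : ℝ))) →
          f N = f N' → ¬ N < N' := by
        intro N hN N' hN' h1 h2 hff hlt
        have h3 := hkey N hN N' hN' hlt hff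
        have h4 : Real.exp (X ^ (1 / (C : ℝ))) ≤ Real.exp ((N : ℝ) ^ (1 / (C : ℝ))) :=
          Real.exp_le_exp.mpr (Real.rpow_le_rpow (by linarith) h1 (by positivity))
        linarith
      intro N hN N' hN' hff
      rcases lt_trichotomy N N' with h1 | h1 | h1
      · exact absurd h1 (hlt N hN.1 N' hN'.1 hN.2.1 hN'.2.2 hff)
      · exact h1
      · exact absurd h1 (hlt N' hN'.1 N hN.1 hN'.2.1 hN.2.2 hff.symm)
    have h1 := Set.encard_le_encard_of_injOn (fun N hN => hfP N hN.1) hinj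
    refine h1.trans ?_
    rw [← hP.cast_ncard_eq]
    exact_mod_cast hCP
  -- the exceptional points
  have hib : i b ≠ i c := by
    intro hbc
    obtain ⟨x, -, hx⟩ := hmod b c h.bc 1 (by simp)
    apply hx
    obtain ⟨τ, hτ⟩ := Pool.Agent.Hhelper14.ZPL.j_surj (x (i b))
    exact ⟨τ, hτ.symm, by rw [gact_one, ← hbc]; exact hτ.symm⟩
  refine ⟨C, E₂ ∪ {x ∈ V | ∃ m : ℕ, 0 < m ∧ m ≤ N₀ ∧ IsogDeg m (x (i b)) (x (i c))}, S, hC0,
    hE₂.union (finite_isogDeg_le hV hdim hib (hmod b c h.bc) N₀), hsp,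
    fun x hx hxE hxS hncm hisog hint => ?_⟩
  rw [Set.mem_union, not_or] at hxE
  refine Sparse_concl_mono (hcore x hx hxE.1 hncm hisog hint fun s => ?_) hC₂C hC0
  by_contra hbad
  rw [not_le] at hbad
  have hspec := mdeg_spec (hisog b c)
  apply hxS
  refine ⟨x, hx, hisog, ⟨s, hbad⟩, rfl, ?_⟩
  by_contra hle
  rw [not_lt] at hle
  exact hxE.2 ⟨hx, _, hspec.1, hle, hspec.2⟩

theorem sparse {n : ℕ} {V : Set (Fin n → ℂ)} (hV : Pool.Agent.Hhelper14.ZPL.IsIrredClosed V)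
    (hVk : KClosed V) (hdim : Pool.Agent.Hhelper14.ZPL.dim V = 1) (i : Fin 3 → Fin n)
    (hmod : ∀ a b, a ≠ b → ∀ g : GL (Fin 2) ℚ, 0 < g.det.val →
      ∃ x ∈ V, ¬ ∃ τ : ℍ, x (i a) = jInv τ ∧ x (i b) = jInv (gact g τ))
    {a b c : Fin 3} {β γ : ℂ} (h : TypeA V i a b c β γ) (hn : NCM β ∨ NCM γ) :
    ∃ (C : ℕ) (E : Set (Fin n → ℂ)) (S : Set ℕ), 0 < C ∧ E.Finite ∧ Sparse C S ∧
      ∀ x ∈ V, x ∉ E → mdeg (x (i b)) (x (i c)) ∉ S → (∀ a, NCM (x (i a))) →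
      (∀ a b, ∃ N, 0 < N ∧ IsogDeg N (x (i a)) (x (i b))) → (∀ a, IsIntegral ℤ (x (i a))) →
      Concl i C x := by
  rcases hn with hn | hn
  · exact Sparse_main hV hVk hdim i hmod h hn
  · obtain ⟨P, hP1, hP2, hP3, hP4⟩ := h.ex
    have h' : TypeA V i a c b γ β := ⟨h.ac, h.ab, h.bc.symm, P, hP1, hP2, hP4, hP3⟩
    obtain ⟨C, E, S, hC, hE, hS, hx⟩ := Sparse_main hV hVk hdim i hmod h' hn
    refine ⟨C, E, S, hC, hE, hS, fun x hxV hxE hxS => hx x hxV hxE ?_⟩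
    rw [mdeg_symm]
    exact hxS

end Pool.Agent.LGO
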