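import Mathlib
import Pool.Agent.LGO.S.Defs
import Pool.Agent.LGO.G.RelF

/-!
# LGO/S: the dichotomy for the points at infinity

`exists_unbounded`.  Let `R = MvPolynomial (Fin n) ℂ ⧸ vanishingIdeal ℂ V`, a domain (`hV.1`), `L` its
fraction field, `ξ ∈ R` the class of `X j`.  Suppose `‖x j‖ ≤ B` on `V`.  For every `c` with `‖c‖ > B` the
polynomial `X j - C c` has no zero on `V = zeroLocus (vanishingIdeal V)`, so by the Nullstellensatz
(`MvPolynomial.vanishingIdeal_zeroLocus_eq_radical`) `ξ - c` is a unit of `R`.  `ξ` is transcendental over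
`ℂ` in `L`: otherwise it is a constant (`ℂ` is algebraically closed) and `x j` is constant on `V`, against
`hj`.  By `Transcendental.linearIndependent_sub_inv` the elements `(ξ - c)⁻¹` (`c ∈ ℂ`, in `L`) are linearly
independent over `ℂ`; those with `‖c‖ > B` lie in the image of `R`, whose dimension over `ℂ` is
countable (it is spanned by the classes of the monomials, `Fin n →₀ ℕ` is countable), while the set of
these `c` is uncountable: contradiction (`LinearIndependent.cardinal_le_rank` or `Set.Countable` of a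
linearly independent family in a space with a countable spanning set).  So for every `m` there is
`P m ∈ V` with `‖P m j‖ ≥ m`.

`dich`.  For `a : Fin 3` take `P m` with `‖P m (i a)‖ → ∞`.  For each of the two other coordinates `b`:
either `‖P m (i b)‖` is bounded, and a subsequence of `P m (i b)` converges
(`tendsto_subseq_of_bounded`), or it is unbounded and it tends to infinity along a subsequence
(`Filter.exists_seq_forall_of_frequently`, or `Nat.rec` construction; `StrictMono` `φ` with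
`‖P (φ m) (i b)‖ ≥ m`).  After passing to subsequences (which preserve the other limits) each of the two
other coordinates converges or tends to infinity.  Both infinite: `1 / x → 0` for all three coordinates
and `eval (1 / x) Q = 0` (the coordinates are nonzero for large `m`), so by continuity
`constantCoeff Q = eval 0 Q = 0`, against `hQ0`.  One infinite: `TwoInf V i k`, `k ≠ a` the index of the
finite one.  None: `TypeA`.
So if there is no type A point then for every `a` there is `k ≠ a` with `TwoInf V i k`: take `a = 0`, get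
`k₁`, then `a = k₁`, get `k₂ ≠ k₁`.
-/

namespace Pool.Agent.LGO

open MvPolynomial Filter Topology Pool.Agent.Hhelper14.ZPL

private theorem Dich_unit {n : ℕ} {V : Set (Fin n → ℂ)}
    (hV : Pool.Agent.Hhelper14.ZPL.IsIrredClosed V) (j : Fin n) {B : ℝ}
    (hB : ∀ x ∈ V, ‖x j‖ ≤ B) {c : ℂ} (hc : B < ‖c‖) :
    ∃ b : MvPolynomial (Fin n) ℂ, b * (X j - C c) - 1 ∈ vanishingIdeal ℂ V := by
  have h1 : zeroLocus ℂ (vanishingIdeal ℂ V ⊔ Ideal.span {(X j - C c : MvPolynomial (Fin n) ℂ)}) =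
      ∅ := by
    rw [Set.eq_empty_iff_forall_notMem]
    intro x hx
    have hx1 : x ∈ V := by
      rw [← hV.2]
      intro p hp
      exact hx p (Ideal.mem_sup_left hp)
    have hx2 := hx (X j - C c) (Ideal.mem_sup_right (Ideal.subset_span rfl))
    rw [map_sub, aeval_X, aeval_C] at hx2
    have hx3 : x j = c := by
      have := sub_eq_zero.1 hx2
      simpa using this
    have := hB x hx1
    rw [hx3] at this
    linarith
  have h2 := vanishingIdeal_zeroLocus_eq_radical (k := ℂ) (K := ℂ)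
    (vanishingIdeal ℂ V ⊔ Ideal.span {(X j - C c : MvPolynomial (Fin n) ℂ)})
  rw [h1] at h2
  have h3 : (vanishingIdeal ℂ (∅ : Set (Fin n → ℂ))) = (⊤ : Ideal (MvPolynomial (Fin n) ℂ)) := by
    rw [Ideal.eq_top_iff_one, mem_vanishingIdeal_iff]
    intro x hx
    exact absurd hx (Set.notMem_empty x)
  rw [h3] at h2
  have h4 := Ideal.radical_eq_top.1 h2.symm
  rw [Ideal.eq_top_iff_one, Submodule.mem_sup] at h4
  obtain ⟨y, hy, z, hz, hyz⟩ := h4
  obtain ⟨b, hb⟩ := Ideal.mem_span_singleton'.1 hz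
  refine ⟨b, ?_⟩
  rw [hb, ← hyz]
  have : z - (y + z) = -y := by ring
  rw [this]
  exact neg_mem hy

private theorem Dich_bdd {n : ℕ} {V : Set (Fin n → ℂ)}
    (hV : Pool.Agent.Hhelper14.ZPL.IsIrredClosed V) (j : Fin n) (hj : ∀ c : ℂ, ∃ x ∈ V, x j ≠ c)
    (B : ℝ) : ∃ x ∈ V, B < ‖x j‖ := by
  by_contra hcon
  push Not at hcon
  have hprime : (vanishingIdeal ℂ V).IsPrime := hV.1
  let R := MvPolynomial (Fin n) ℂ ⧸ vanishingIdeal ℂ V
  let L := FractionRing R
  let ξ : L := algebraMap R L (Ideal.Quotient.mk _ (X j))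
  have hinj : Function.Injective (algebraMap R L) := IsFractionRing.injective R L
  have hcst : ∀ a : ℂ, algebraMap ℂ L a = algebraMap R L (Ideal.Quotient.mk _ (C a)) := by
    intro a
    rw [IsScalarTower.algebraMap_apply ℂ R L]
    rfl
  have hsub : ∀ a : ℂ, ξ - algebraMap ℂ L a =
      algebraMap R L (Ideal.Quotient.mk _ (X j - C a)) := by
    intro a
    rw [hcst, map_sub, map_sub]
  have htr : Transcendental ℂ ξ := by
    intro halg
    have hint : IsIntegral ℂ ξ := halg.isIntegral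
    have h1 : (minpoly ℂ ξ).degree = 1 :=
      IsAlgClosed.degree_eq_one_of_irreducible ℂ (minpoly.irreducible hint)
    obtain ⟨c, hc⟩ := minpoly.mem_range_of_degree_eq_one ℂ ξ h1
    have h2 := hsub c
    rw [hc, sub_self] at h2
    have h3 : (Ideal.Quotient.mk (vanishingIdeal ℂ V)) (X j - C c) = 0 := by
      apply hinj
      rw [← h2, map_zero]
    rw [Ideal.Quotient.eq_zero_iff_mem, mem_vanishingIdeal_iff] at h3
    obtain ⟨x, hx, hne⟩ := hj c
    have h4 := h3 x hx
    rw [map_sub, aeval_X, aeval_C] at h4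
    apply hne
    have := sub_eq_zero.1 h4
    simpa using this
  have hli := htr.linearIndependent_sub_inv
  have hli2 : LinearIndependent ℂ fun a : {a : ℂ // B < ‖a‖} => (ξ - algebraMap ℂ L a)⁻¹ :=
    hli.comp _ Subtype.val_injective
  choose b hb using fun a : {a : ℂ // B < ‖a‖} => Dich_unit hV j hcon a.2
  have hli3 : LinearIndependent ℂ fun a : {a : ℂ // B < ‖a‖} =>
      (Ideal.Quotient.mk (vanishingIdeal ℂ V) (b a) : R) := by
    refine LinearIndependent.of_comp (IsScalarTower.toAlgHom ℂ R L).toLinearMap ?_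
    have : (⇑(IsScalarTower.toAlgHom ℂ R L).toLinearMap ∘ fun a : {a : ℂ // B < ‖a‖} =>
        (Ideal.Quotient.mk (vanishingIdeal ℂ V) (b a) : R)) =
        fun a : {a : ℂ // B < ‖a‖} => (ξ - algebraMap ℂ L a)⁻¹ := by
      funext a
      have h5 : algebraMap R L (Ideal.Quotient.mk _ (b a)) * (ξ - algebraMap ℂ L a) = 1 := by
        rw [hsub, ← map_mul, ← map_mul, ← map_one (algebraMap R L)]
        congr 1
        rw [← map_one (Ideal.Quotient.mk (vanishingIdeal ℂ V)), Ideal.Quotient.eq]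
        exact hb a
      exact eq_inv_of_mul_eq_one_left h5
    rw [this]
    exact hli2
  have h6 := hli3.cardinal_le_rank
  have h7 : Module.rank ℂ R ≤ Cardinal.aleph0 := by
    have h8 : Module.rank ℂ R ≤ Module.rank ℂ (MvPolynomial (Fin n) ℂ) :=
      LinearMap.rank_le_of_surjective (Ideal.Quotient.mkₐ ℂ (vanishingIdeal ℂ V)).toLinearMap
        (Ideal.Quotient.mkₐ_surjective ℂ (vanishingIdeal ℂ V))
    refine h8.trans ?_
    rw [← (basisMonomials (Fin n) ℂ).mk_eq_rank'']
    exact Cardinal.mk_le_aleph0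
  have h9 : Countable {a : ℂ // B < ‖a‖} := Cardinal.mk_le_aleph0_iff.1 (h6.trans h7)
  have h10 : ({a : ℂ | B < ‖a‖} : Set ℂ).Countable := h9
  have h11 := h10.dense_compl ℝ
  have h12 : IsClosed ({a : ℂ | B < ‖a‖}ᶜ : Set ℂ) :=
    (isOpen_lt continuous_const continuous_norm).isClosed_compl
  have h13 : (((|B| + 1 : ℝ) : ℂ)) ∈ ({a : ℂ | B < ‖a‖}ᶜ : Set ℂ) := by
    have := h12.closure_eq ▸ h11 (((|B| + 1 : ℝ) : ℂ))
    exact this
  apply h13
  show B < ‖(((|B| + 1 : ℝ) : ℂ))‖
  rw [Complex.norm_real, Real.norm_eq_abs]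
  have h14 := le_abs_self B
  have h15 := le_abs_self (|B| + 1)
  linarith

private theorem Dich_sub (u : ℕ → ℂ) : ∃ φ : ℕ → ℕ, StrictMono φ ∧
    (Tendsto (fun m => ‖u (φ m)‖) atTop atTop ∨ ∃ γ, Tendsto (fun m => u (φ m)) atTop (𝓝 γ)) := by
  by_cases h : Tendsto (fun m => ‖u m‖) atTop atTop
  · exact ⟨id, strictMono_id, Or.inl h⟩
  · rw [tendsto_atTop] at h
    push Not at h
    obtain ⟨B, hB⟩ := h
    obtain ⟨φ, hφ, hφ'⟩ := extraction_of_frequently_atTop hB
    have hb : Bornology.IsBounded (Metric.closedBall (0 : ℂ) B) := Metric.isBounded_closedBall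
    obtain ⟨γ, -, ψ, hψ, hγ⟩ := tendsto_subseq_of_bounded hb (x := fun m => u (φ m)) (by
      intro m
      rw [mem_closedBall_zero_iff]
      exact (hφ' m).le)
    exact ⟨φ ∘ ψ, hφ.comp hψ, Or.inr ⟨γ, hγ⟩⟩

private theorem Dich_inf {n : ℕ} {V : Set (Fin n → ℂ)} {i : Fin 3 → Fin n}
    {Q : MvPolynomial (Fin 3) ℂ} (hQ0 : constantCoeff Q ≠ 0)
    (hQ : ∀ x ∈ V, (∀ a, x (i a) ≠ 0) → eval (fun a => (x (i a))⁻¹) Q = 0)
    {P : ℕ → Fin n → ℂ} (hP : ∀ m, P m ∈ V)
    (h : ∀ a, Tendsto (fun m => ‖P m (i a)‖) atTop atTop) : False := by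
  have h1 : Tendsto (fun m => fun a => (P m (i a))⁻¹) atTop (𝓝 (0 : Fin 3 → ℂ)) := by
    rw [tendsto_pi_nhds]
    intro a
    have h2 : Tendsto (fun m => ‖(P m (i a))⁻¹‖) atTop (𝓝 0) := by
      simp only [norm_inv]
      exact tendsto_inv_atTop_zero.comp (h a)
    exact tendsto_zero_iff_norm_tendsto_zero.2 h2
  have h3 : Tendsto (fun m => eval (fun a => (P m (i a))⁻¹) Q) atTop
      (𝓝 (eval (0 : Fin 3 → ℂ) Q)) :=
    ((MvPolynomial.continuous_eval Q).tendsto _).comp h1
  have h4 : ∀ᶠ m in atTop, ∀ a, P m (i a) ≠ 0 := by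
    rw [eventually_all]
    intro a
    filter_upwards [(h a).eventually_gt_atTop 0] with m hm
    exact norm_pos_iff.1 hm
  have h5 : Tendsto (fun m => eval (fun a => (P m (i a))⁻¹) Q) atTop (𝓝 0) := by
    refine tendsto_const_nhds.congr' ?_
    filter_upwards [h4] with m hm
    exact (hQ _ (hP m) hm).symm
  have h6 := tendsto_nhds_unique h3 h5
  apply hQ0
  rw [← h6]
  have : (0 : Fin 3 → ℂ) = fun _ => 0 := rfl
  rw [constantCoeff_eq, this, eval_zero']
  rfl

theorem exists_unbounded {n : ℕ} {V : Set (Fin n → ℂ)}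
    (hV : Pool.Agent.Hhelper14.ZPL.IsIrredClosed V) (j : Fin n) (hj : ∀ c : ℂ, ∃ x ∈ V, x j ≠ c) :
    ∃ P : ℕ → Fin n → ℂ, (∀ m, P m ∈ V) ∧ Tendsto (fun m => ‖P m j‖) atTop atTop := by
  choose P hP hP' using fun m : ℕ => Dich_bdd hV j hj m
  exact ⟨P, hP, tendsto_atTop_mono (fun m => (hP' m).le) tendsto_natCast_atTop_atTop⟩

theorem dich {n : ℕ} {V : Set (Fin n → ℂ)} (hV : Pool.Agent.Hhelper14.ZPL.IsIrredClosed V)
    (i : Fin 3 → Fin n) (hconst : ∀ a, ∀ c : ℂ, ∃ x ∈ V, x (i a) ≠ c)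
    {Q : MvPolynomial (Fin 3) ℂ} (hQ0 : constantCoeff Q ≠ 0)
    (hQ : ∀ x ∈ V, (∀ a, x (i a) ≠ 0) → eval (fun a => (x (i a))⁻¹) Q = 0) :
    (∃ k₁ k₂ : Fin 3, k₁ ≠ k₂ ∧ TwoInf V i k₁ ∧ TwoInf V i k₂) ∨
      ∃ (a b c : Fin 3) (β γ : ℂ), TypeA V i a b c β γ := by
  by_cases hA : ∃ (a b c : Fin 3) (β γ : ℂ), TypeA V i a b c β γ
  · exact Or.inr hA
  left
  have key : ∀ a b c : Fin 3, a ≠ b → a ≠ c → b ≠ c → (∀ d, d = a ∨ d = b ∨ d = c) →
      ∃ k, k ≠ a ∧ TwoInf V i k := by
    intro a b c hab hac hbc hall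
    obtain ⟨P, hP, hPa⟩ := exists_unbounded hV (i a) (hconst a)
    obtain ⟨φ, hφ, hb⟩ := Dich_sub fun m => P m (i b)
    obtain ⟨ψ, hψ, hc⟩ := Dich_sub fun m => P (φ m) (i c)
    have hP' : ∀ m, P (φ (ψ m)) ∈ V := fun m => hP _
    have hcomp : Tendsto (fun m => φ (ψ m)) atTop atTop :=
      hφ.tendsto_atTop.comp hψ.tendsto_atTop
    have hPa' : Tendsto (fun m => ‖P (φ (ψ m)) (i a)‖) atTop atTop := hPa.comp hcomp
    rcases hb with hb | ⟨β, hb⟩
    · have hb' : Tendsto (fun m => ‖P (φ (ψ m)) (i b)‖) atTop atTop :=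
        hb.comp hψ.tendsto_atTop
      rcases hc with hc | ⟨γ, hc⟩
      · exfalso
        refine Dich_inf hQ0 hQ hP' ?_
        intro d
        rcases hall d with rfl | rfl | rfl
        · exact hPa'
        · exact hb'
        · exact hc
      · refine ⟨c, hac.symm, fun m => P (φ (ψ m)), γ, hP', ?_, hc⟩
        intro d hd
        rcases hall d with rfl | rfl | rfl
        · exact hPa'
        · exact hb'
        · exact absurd rfl hd
    · have hb' : Tendsto (fun m => P (φ (ψ m)) (i b)) atTop (𝓝 β) :=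
        hb.comp hψ.tendsto_atTop
      rcases hc with hc | ⟨γ, hc⟩
      · refine ⟨b, hab.symm, fun m => P (φ (ψ m)), β, hP', ?_, hb'⟩
        intro d hd
        rcases hall d with rfl | rfl | rfl
        · exact hPa'
        · exact absurd rfl hd
        · exact hc
      · exact absurd ⟨a, b, c, β, γ, hab, hac, hbc, fun m => P (φ (ψ m)), hP', hPa', hb', hc⟩ hA
  have key2 : ∀ a : Fin 3, ∃ k, k ≠ a ∧ TwoInf V i k := by
    intro a
    fin_cases a
    · exact key 0 1 2 (by decide) (by decide) (by decide) (by decide)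
    · exact key 1 0 2 (by decide) (by decide) (by decide) (by decide)
    · exact key 2 0 1 (by decide) (by decide) (by decide) (by decide)
  obtain ⟨k₁, -, h₁⟩ := key2 0
  obtain ⟨k₂, h21, h₂⟩ := key2 k₁
  exact ⟨k₁, k₂, h21.symm, h₁, h₂⟩

end Pool.Agent.LGO
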